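import Pool.Agent.X292.ZP.Com

/-!
# The common form of the direct sum
-/

set_option linter.unusedSectionVars false

namespace Pool.Agent.X292.ZP

open Module MvPolynomial
open Pool.Agent.W528.ZC (ev InIdentityComponent Vanishes val repM toM inIC_iff lef lef_iff
  InLefschetz mapQ IsZeroOf inIC_sub)

noncomputable section

variable {I : Type} [Fintype I] [DecidableEq I] {κ : Type} [Fintype κ] [DecidableEq κ]
  {ι : I → Type} [∀ i, Fintype (ι i)] [∀ i, DecidableEq (ι i)] {Γ : Type} [Group Γ]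
  {n : I → ℕ} {ψB : Matrix κ κ ℚ} {ψ : ∀ i, Matrix (ι i) (ι i) ℚ}

/-- the multiplier as a polynomial -/
def mulP (ψB : Matrix κ κ ℚ) (a b : κ) : MvPolynomial (κ × κ) ℚ :=
  C (ψB a b)⁻¹ * ((gen κ).transpose * ψB.map (C : ℚ →+* MvPolynomial (κ × κ) ℚ) * gen κ :
    Matrix κ κ (MvPolynomial (κ × κ) ℚ)) a b

/-- the matrix of polynomials -/
def bigM (n : I → ℕ) (ψB : Matrix κ κ ℚ) (a b : κ) (p : ∀ i, Matrix (ι i) (ι i) ℚ) :
    Matrix (Idx κ ι n) (Idx κ ι n) (MvPolynomial (κ × κ) ℚ) :=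
  blocks n (gen κ) fun i => dm ((p i).map C) (mulP ψB a b)

/-- the equations of the first factor -/
def Sfst (n : I → ℕ) (ψB : Matrix κ κ ℚ) (a b : κ) (p : ∀ i, Matrix (ι i) (ι i) ℚ)
    (S : Set (MvPolynomial (Idx κ ι n × Idx κ ι n) ℚ)) : Set (MvPolynomial (κ × κ) ℚ) :=
  lef ψB ∅ ∪ {q | ∃ f ∈ S, q = aeval (fun q : Idx κ ι n × Idx κ ι n =>
    bigM n ψB a b p q.1 q.2) f}

variable {L : Type} [Field L] [Algebra ℚ L]

theorem mapC {κ τ : Type} [Fintype κ] [DecidableEq κ] (g : Matrix κ κ L) (Y : Matrix τ τ ℚ) :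
    (Y.map (C : ℚ →+* MvPolynomial (κ × κ) ℚ)).map (evQ g) = Y.map (algebraMap ℚ L) := by
  ext a b
  rw [Matrix.map_apply, Matrix.map_apply, Matrix.map_apply]
  exact aeval_C _ _

theorem evQ_mulP {gB : Matrix κ κ L} {c : L} {a b : κ} (hab : ψB a b ≠ 0)
    (h : Sim (mapQ L ψB) gB c) : evQ gB (mulP ψB a b) = c := by
  have h1 : ((gen κ).transpose * ψB.map (C : ℚ →+* MvPolynomial (κ × κ) ℚ) * gen κ :
      Matrix κ κ (MvPolynomial (κ × κ) ℚ)).map (evQ gB) = c • mapQ L ψB := by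
    rw [Matrix.map_mul, Matrix.map_mul, mapC, Matrix.transpose_map, gen_map]
    exact h
  have h2 := congrFun (congrFun h1 a) b
  rw [Matrix.map_apply, Matrix.smul_apply] at h2
  unfold mulP
  rw [map_mul, h2]
  have h3 : evQ gB (C (ψB a b)⁻¹) = (algebraMap ℚ L (ψB a b))⁻¹ := by
    rw [← map_inv₀]
    exact aeval_C _ _
  have h4 : mapQ L ψB a b = algebraMap ℚ L (ψB a b) := rfl
  have h5 : algebraMap ℚ L (ψB a b) ≠ 0 := by
    rwa [Ne, map_eq_zero]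
  rw [h3, h4, smul_eq_mul, mul_comm c, ← mul_assoc, inv_mul_cancel₀ h5, one_mul]

theorem bigM_map {gB : Matrix κ κ L} {c : L} {a b : κ} (hab : ψB a b ≠ 0)
    (h : Sim (mapQ L ψB) gB c) (p : ∀ i, Matrix (ι i) (ι i) ℚ) :
    (bigM n ψB a b p).map (evQ gB) = blocks n gB fun i => dm (mapQ L (p i)) c := by
  unfold bigM
  rw [blocks_map _ (map_zero _), gen_map]
  congr 1
  funext i
  have h1 : (dm ((p i).map C) (mulP ψB a b)).map (evQ gB) =
      1 - ((p i).map C).map (evQ gB) + evQ gB (mulP ψB a b) • ((p i).map C).map (evQ gB) := by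
    unfold dm
    ext x y
    simp only [Matrix.map_apply, Matrix.add_apply, Matrix.sub_apply, Matrix.smul_apply, map_add,
      map_sub, smul_eq_mul, map_mul, Matrix.one_apply]
    split_ifs
    · rw [map_one]
    · rw [map_zero]
  rw [h1, mapC, evQ_mulP hab h]
  rfl

theorem Sfst_iff (hψB : IsUnit ψB.det) {a b : κ} (hab : ψB a b ≠ 0)
    (p : ∀ i, Matrix (ι i) (ι i) ℚ) (S : Set (MvPolynomial (Idx κ ι n × Idx κ ι n) ℚ))
    {gB : Matrix κ κ L} (hg : IsUnit gB.det) : IsZeroOf (Sfst n ψB a b p S) gB ↔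
      ∃ c : L, c ≠ 0 ∧ Sim (mapQ L ψB) gB c ∧
        IsZeroOf S (blocks n gB fun i => dm (mapQ L (p i)) c) := by
  unfold Sfst
  rw [isZeroOf_union, lef_sim hψB hg]
  have h1 : ∀ c : L, Sim (mapQ L ψB) gB c →
      (IsZeroOf {q | ∃ f ∈ S, q = aeval (fun q : Idx κ ι n × Idx κ ι n =>
        bigM n ψB a b p q.1 q.2) f} gB ↔
        IsZeroOf S (blocks n gB fun i => dm (mapQ L (p i)) c)) := by
    intro c hs
    rw [isZeroOf_iff, isZeroOf_iff]
    have h2 : ∀ f : MvPolynomial (Idx κ ι n × Idx κ ι n) ℚ,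
        evQ gB (aeval (fun q : Idx κ ι n × Idx κ ι n => bigM n ψB a b p q.1 q.2) f) =
          evQ (blocks n gB fun i => dm (mapQ L (p i)) c) f := by
      intro f
      rw [evQ_aeval, bigM_map hab hs]
    constructor
    · intro h f hf
      rw [← h2]
      exact h _ ⟨f, hf, rfl⟩
    · rintro h _ ⟨f, hf, rfl⟩
      rw [h2]
      exact h f hf
  constructor
  · rintro ⟨⟨c, hc, hs⟩, h2⟩
    exact ⟨c, hc, hs, (h1 c hs).1 h2⟩
  · rintro ⟨c, hc, hs, h2⟩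
    exact ⟨⟨c, hc, hs⟩, (h1 c hs).2 h2⟩

theorem mK_mapQ {τ : Type} (ℓ : ℕ) [Fact ℓ.Prime] (M : Matrix τ τ ℚ) :
    mK (AlgebraicClosure ℚ_[ℓ]) (mapQ ℚ_[ℓ] M) = mapQ (AlgebraicClosure ℚ_[ℓ]) M := by
  ext a b
  change algebraMap ℚ_[ℓ] (AlgebraicClosure ℚ_[ℓ]) (algebraMap ℚ ℚ_[ℓ] (M a b)) =
    algebraMap ℚ (AlgebraicClosure ℚ_[ℓ]) (M a b)
  rw [eq_ratCast, eq_ratCast, map_ratCast]

theorem unit_mapQ {τ : Type} [Fintype τ] [DecidableEq τ] {M : Matrix τ τ ℚ} (hM : IsUnit M.det) :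
    IsUnit (mapQ L M).det := by
  have h1 := (algebraMap ℚ L).map_det M
  rw [RingHom.mapMatrix_apply] at h1
  change IsUnit (M.map (algebraMap ℚ L)).det
  rw [← h1]
  exact hM.map _

theorem mapQ_neg {τ : Type} {M : Matrix τ τ ℚ} (h : M.transpose = -M) :
    (mapQ L M).transpose = -mapQ L M := by
  unfold mapQ
  rw [← Matrix.transpose_map, h]
  ext a b
  simp

section main

variable (hn : ∀ i, 0 < n i) (hψB : IsUnit ψB.det) (hal : ∀ i, (ψ i).transpose = -ψ i)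
  (hnd : ∀ i, IsUnit (ψ i).det)

include hn hψB hal hnd in
/-- The identity component of the direct sum for one prime. -/
theorem one_prime (ℓ : ℕ) [Fact ℓ.Prime] {ρB : Γ →* Matrix κ κ ℚ_[ℓ]}
    {ρ : ∀ i, Γ →* Matrix (ι i) (ι i) ℚ_[ℓ]} {χ : Γ →* ℚ_[ℓ]}
    (hG : GoodAt ψB ψ ℓ ρB ρ χ) (Γ' : Subgroup Γ) (hΓ' : Γ'.FiniteIndex)
    {g : Matrix (Idx κ ι n) (Idx κ ι n) (AlgebraicClosure ℚ_[ℓ])} (hg : IsUnit g.det) :
    InIdentityComponent ((sumRep n ρB ρ).comp Γ'.subtype) g ↔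
    ∃ gB gA, ∃ c : AlgebraicClosure ℚ_[ℓ], c ≠ 0 ∧ g = blocks n gB gA ∧
      InIdentityComponent ρB gB ∧ Sim (mapQ (AlgebraicClosure ℚ_[ℓ]) ψB) gB c ∧
      ∀ i, Sim (mapQ (AlgebraicClosure ℚ_[ℓ]) (ψ i)) (gA i) c := by
  rw [inIC_sub _ Γ' hΓ']
  have h := inIC_main (K := AlgebraicClosure ℚ_[ℓ]) hn hG.formB hG.form (unit_mapQ hψB)
    (fun i => unit_mapQ (hnd i)) (fun i => mapQ_neg (hal i)) hG.family hG.infinite hg
  simp only [mK_mapQ] at h
  exact h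

include hn hψB hal hnd in
/-- **The common form of the direct sum.** -/
theorem common_iff (ρB : ∀ (ℓ : ℕ) [Fact ℓ.Prime], Γ →* Matrix κ κ ℚ_[ℓ])
    (ρ : ∀ (ℓ : ℕ) [Fact ℓ.Prime] (i : I), Γ →* Matrix (ι i) (ι i) ℚ_[ℓ])
    (χ : ∀ (ℓ : ℕ) [Fact ℓ.Prime], Γ →* ℚ_[ℓ]) (ℓ₀ : ℕ)
    (hG : ∀ (ℓ : ℕ) [Fact ℓ.Prime], ℓ₀ ≤ ℓ → GoodAt ψB ψ ℓ (ρB ℓ) (ρ ℓ) (χ ℓ)) :
    HasCommonForm ρB ↔ HasCommonForm fun ℓ _ => sumRep n (ρB ℓ) (ρ ℓ) := by
  constructor
  · rintro ⟨ℓ₁, S, h⟩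
    refine ⟨max ℓ₀ ℓ₁, Ssum hn ψB ψ S, fun ℓ _ hℓ Γ' hΓ' g hg => ?_⟩
    rw [one_prime hn hψB hal hnd ℓ (hG ℓ (le_trans (le_max_left _ _) hℓ)) Γ' hΓ' hg,
      Ssum_iff hn hψB hnd S hg]
    have h1 : ∀ (gB : Matrix κ κ (AlgebraicClosure ℚ_[ℓ])), IsUnit gB.det →
        (InIdentityComponent (ρB ℓ) gB ↔ IsZeroOf S gB) := by
      intro gB hgB
      rw [← h ℓ (le_trans (le_max_right _ _) hℓ) ⊤ inferInstance gB hgB,
        inIC_sub _ ⊤ inferInstance]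
    constructor
    · rintro ⟨gB, gA, c, hc, hgg, h2, h3, h4⟩
      exact ⟨gB, gA, c, hc, hgg, (h1 gB (h3.unit hc (unit_mapQ hψB))).1 h2, h3, h4⟩
    · rintro ⟨gB, gA, c, hc, hgg, h2, h3, h4⟩
      exact ⟨gB, gA, c, hc, hgg, (h1 gB (h3.unit hc (unit_mapQ hψB))).2 h2, h3, h4⟩
  · rintro ⟨ℓ₁, S, h⟩
    rcases isEmpty_or_nonempty κ with hκ | hκ
    · refine ⟨0, ∅, fun ℓ _ _ Γ' _ g _ => ?_⟩
      constructor
      · intro _ f hf
        exact absurd hf (Set.notMem_empty f)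
      · rintro - f ⟨Δ, _, hf⟩
        have h1 := hf 1 (one_mem _)
        have h2 : g = (((ρB ℓ).comp Γ'.subtype) 1).map (algebraMap ℚ_[ℓ] (AlgebraicClosure ℚ_[ℓ])) :=
          Matrix.ext fun a => hκ.elim a
        rw [h2]
        exact h1
    · obtain ⟨a, b, hab⟩ : ∃ a b, ψB a b ≠ 0 := by
        by_contra hcon
        push Not at hcon
        have h1 : ψB = 0 := Matrix.ext fun a b => hcon a b
        rw [h1, Matrix.det_zero] at hψB
        exact not_isUnit_zero hψB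
      have hp : ∀ i, ∃ p : Matrix (ι i) (ι i) ℚ, p * p = p ∧
          p.transpose * ψ i + ψ i * p = ψ i := by
        intro i
        refine exists_lag_matrix (hal i) (fun x => ?_) (hnd i)
        have h1 := congrFun (congrFun (hal i) x) x
        rw [Matrix.transpose_apply, Matrix.neg_apply] at h1
        linarith
      choose p hp1 hp2 using hp
      refine ⟨max ℓ₀ ℓ₁, Sfst n ψB a b p S, fun ℓ _ hℓ Γ' hΓ' gB hgB => ?_⟩
      have hGℓ := hG ℓ (le_trans (le_max_left _ _) hℓ)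
      rw [inIC_sub _ Γ' hΓ', Sfst_iff hψB hab p S hgB]
      have hdm : ∀ (c : AlgebraicClosure ℚ_[ℓ]) i,
          Sim (mapQ (AlgebraicClosure ℚ_[ℓ]) (ψ i)) (dm (mapQ (AlgebraicClosure ℚ_[ℓ]) (p i)) c)
            c := by
        intro c i
        refine dm_form ?_ ?_ c
        · have h1 := congrArg (fun M => mapQ (AlgebraicClosure ℚ_[ℓ]) M) (hp1 i)
          simp only [mapQ, Matrix.map_mul] at h1
          exact h1
        · have h1 := congrArg (fun M => mapQ (AlgebraicClosure ℚ_[ℓ]) M) (hp2 i)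
          simp only [mapQ] at h1
          rw [Matrix.map_add _ (map_add _), Matrix.map_mul, Matrix.map_mul,
            Matrix.transpose_map] at h1
          exact h1
      have hun : ∀ c : AlgebraicClosure ℚ_[ℓ], c ≠ 0 → IsUnit (blocks n gB fun i =>
          dm (mapQ (AlgebraicClosure ℚ_[ℓ]) (p i)) c).det := fun c hc =>
        unit_blocks hgB fun i => (hdm c i).unit hc (unit_mapQ (hnd i))
      constructor
      · intro h1
        obtain ⟨c, hc, hs⟩ := ic_sim hGℓ.formB (unit_mapQ hψB) hgB h1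
        rw [mK_mapQ] at hs
        refine ⟨c, hc, hs, (h ℓ (le_trans (le_max_right _ _) hℓ) ⊤ inferInstance _
          (hun c hc)).1 ?_⟩
        rw [one_prime hn hψB hal hnd ℓ hGℓ ⊤ inferInstance (hun c hc)]
        exact ⟨gB, _, c, hc, rfl, h1, hs, fun i => hdm c i⟩
      · rintro ⟨c, hc, hs, h1⟩
        have h2 := (h ℓ (le_trans (le_max_right _ _) hℓ) ⊤ inferInstance _ (hun c hc)).2 h1
        rw [inIC_sub _ ⊤ inferInstance] at h2
        exact ic_first h2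

end main

end

end Pool.Agent.X292.ZP
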