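import Mathlib

/-!
# Block diagonal matrices with repeated blocks
-/

set_option linter.unusedSectionVars false

namespace Pool.Agent.X292.ZP

open Module

/-- The index set of the direct sum of `L^κ` and of `n i` copies of `L^(ι i)`, for all `i`. -/
abbrev Idx (κ : Type) {I : Type} (ι : I → Type) (n : I → ℕ) : Type := κ ⊕ Σ i, ι i × Fin (n i)

section mat

variable {I : Type} [DecidableEq I] {κ : Type} {ι : I → Type} {n : I → ℕ}

/-- The block diagonal matrix with the block `gB` and, for each `i`, `n i` times the block `g i`. -/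
def blocks {L : Type} [Zero L] (n : I → ℕ) (gB : Matrix κ κ L) (g : ∀ i, Matrix (ι i) (ι i) L) :
    Matrix (Idx κ ι n) (Idx κ ι n) L :=
  Matrix.fromBlocks gB 0 0
    (Matrix.blockDiagonal' fun i => Matrix.blockDiagonal fun _ : Fin (n i) => g i)

variable {L : Type}

@[simp] theorem blocks_inl [Zero L] (gB : Matrix κ κ L) (g : ∀ i, Matrix (ι i) (ι i) L) (a b : κ) :
    blocks n gB g (Sum.inl a) (Sum.inl b) = gB a b := rfl

@[simp] theorem blocks_inl_inr [Zero L] (gB : Matrix κ κ L) (g : ∀ i, Matrix (ι i) (ι i) L)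
    (a : κ) (y : Σ i, ι i × Fin (n i)) : blocks n gB g (Sum.inl a) (Sum.inr y) = 0 := rfl

@[simp] theorem blocks_inr_inl [Zero L] (gB : Matrix κ κ L) (g : ∀ i, Matrix (ι i) (ι i) L)
    (a : κ) (y : Σ i, ι i × Fin (n i)) : blocks n gB g (Sum.inr y) (Sum.inl a) = 0 := rfl

theorem blocks_ne [Zero L] (gB : Matrix κ κ L) (g : ∀ i, Matrix (ι i) (ι i) L) {i i' : I}
    (h : i ≠ i') (a : ι i × Fin (n i)) (b : ι i' × Fin (n i')) :
    blocks n gB g (Sum.inr ⟨i, a⟩) (Sum.inr ⟨i', b⟩) = 0 := by
  change (Matrix.blockDiagonal' fun i => Matrix.blockDiagonal fun _ : Fin (n i) => g i)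
    ⟨i, a⟩ ⟨i', b⟩ = 0
  exact Matrix.blockDiagonal'_apply_ne _ _ _ h

theorem blocks_eq [Zero L] (gB : Matrix κ κ L) (g : ∀ i, Matrix (ι i) (ι i) L) (i : I)
    (a b : ι i) (m m' : Fin (n i)) :
    blocks n gB g (Sum.inr ⟨i, (a, m)⟩) (Sum.inr ⟨i, (b, m')⟩) = if m = m' then g i a b else 0 := by
  change (Matrix.blockDiagonal' fun i => Matrix.blockDiagonal fun _ : Fin (n i) => g i)
    ⟨i, (a, m)⟩ ⟨i, (b, m')⟩ = _
  rw [Matrix.blockDiagonal'_apply_eq, Matrix.blockDiagonal_apply]

theorem blocks_map [Zero L] {L' : Type} [Zero L'] (φ : L → L') (h0 : φ 0 = 0) (gB : Matrix κ κ L)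
    (g : ∀ i, Matrix (ι i) (ι i) L) :
    (blocks n gB g).map φ = blocks n (gB.map φ) fun i => (g i).map φ := by
  ext x y
  rw [Matrix.map_apply]
  rcases x with a | ⟨i, a, m⟩ <;> rcases y with b | ⟨i', b, m'⟩
  · rfl
  · exact h0
  · exact h0
  · by_cases h : i = i'
    · subst h
      rw [blocks_eq, blocks_eq]
      split_ifs
      · rfl
      · exact h0
    · rw [blocks_ne _ _ h, blocks_ne _ _ h, h0]

theorem blocks_transpose [Zero L] (gB : Matrix κ κ L) (g : ∀ i, Matrix (ι i) (ι i) L) :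
    (blocks n gB g).transpose = blocks n gB.transpose fun i => (g i).transpose := by
  ext x y
  rw [Matrix.transpose_apply]
  rcases x with a | ⟨i, a, m⟩ <;> rcases y with b | ⟨i', b, m'⟩
  · rfl
  · rfl
  · rfl
  · by_cases h : i = i'
    · subst h
      rw [blocks_eq, blocks_eq]
      simp only [eq_comm, Matrix.transpose_apply]
    · rw [blocks_ne _ _ h, blocks_ne _ _ (Ne.symm h)]

theorem blocks_inj [Zero L] (hn : ∀ i, 0 < n i) {gB gB' : Matrix κ κ L}
    {g g' : ∀ i, Matrix (ι i) (ι i) L} (h : blocks n gB g = blocks n gB' g') :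
    gB = gB' ∧ g = g' := by
  constructor
  · ext a b
    exact congrFun (congrFun h (Sum.inl a)) (Sum.inl b)
  · funext i
    ext a b
    have h1 := congrFun (congrFun h (Sum.inr ⟨i, (a, ⟨0, hn i⟩)⟩)) (Sum.inr ⟨i, (b, ⟨0, hn i⟩)⟩)
    rwa [blocks_eq, blocks_eq, if_pos rfl, if_pos rfl] at h1

theorem blocks_smul [MulZeroClass L] (c : L) (gB : Matrix κ κ L)
    (g : ∀ i, Matrix (ι i) (ι i) L) :
    c • blocks n gB g = blocks n (c • gB) fun i => c • g i := by
  ext x y
  rw [Matrix.smul_apply]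
  rcases x with a | ⟨i, a, m⟩ <;> rcases y with b | ⟨i', b, m'⟩
  · rfl
  · exact mul_zero c
  · exact mul_zero c
  · by_cases h : i = i'
    · subst h
      rw [blocks_eq, blocks_eq]
      split_ifs
      · rfl
      · exact mul_zero c
    · rw [blocks_ne _ _ h, blocks_ne _ _ h]
      exact mul_zero c

variable [Fintype I] [Fintype κ] [DecidableEq κ] [∀ i, Fintype (ι i)] [∀ i, DecidableEq (ι i)]

theorem blocks_mul [Semiring L] (gB gB' : Matrix κ κ L) (g g' : ∀ i, Matrix (ι i) (ι i) L) :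
    blocks n gB g * blocks n gB' g' = blocks n (gB * gB') fun i => g i * g' i := by
  unfold blocks
  rw [Matrix.fromBlocks_multiply]
  simp only [Matrix.zero_mul, Matrix.mul_zero, add_zero, zero_add]
  rw [← Matrix.blockDiagonal'_mul]
  simp only [Matrix.blockDiagonal_mul]

theorem blocks_one [Semiring L] :
    blocks n (1 : Matrix κ κ L) (fun i => (1 : Matrix (ι i) (ι i) L)) = 1 := by
  unfold blocks
  have h1 : (fun i => Matrix.blockDiagonal fun _ : Fin (n i) => (1 : Matrix (ι i) (ι i) L)) =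
      fun i => (1 : Matrix (ι i × Fin (n i)) (ι i × Fin (n i)) L) := by
    funext i
    exact Matrix.blockDiagonal_one
  rw [h1]
  have h2 : Matrix.blockDiagonal' (fun i => (1 : Matrix (ι i × Fin (n i)) (ι i × Fin (n i)) L)) =
      1 := Matrix.blockDiagonal'_one
  rw [h2, Matrix.fromBlocks_one]

end mat

section op

variable {I : Type} [Fintype I] [DecidableEq I] {κ : Type} [Fintype κ] [DecidableEq κ]
  {ι : I → Type} [∀ i, Fintype (ι i)] [∀ i, DecidableEq (ι i)] {n : I → ℕ} {L : Type} [CommRing L]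

/-- the inclusion of the first summand -/
def incB (ι : I → Type) (n : I → ℕ) (L : Type) [CommRing L] : (κ → L) →ₗ[L] (Idx κ ι n → L) where
  toFun v := Sum.elim v 0
  map_add' u v := by
    funext x
    rcases x with a | x
    · rfl
    · exact (add_zero _).symm
  map_smul' c v := by
    funext x
    rcases x with a | x
    · rfl
    · exact (mul_zero c).symm

/-- the projection to the first summand -/
def prB (ι : I → Type) (n : I → ℕ) (L : Type) [CommRing L] : (Idx κ ι n → L) →ₗ[L] (κ → L) :=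
  LinearMap.funLeft L L Sum.inl

/-- the inclusion of a copy of `L ^ (ι i)` -/
def inc (κ : Type) [DecidableEq κ] (L : Type) [CommRing L] (i : I) (m : Fin (n i)) :
    (ι i → L) →ₗ[L] (Idx κ ι n → L) where
  toFun v := ∑ a, v a • (Pi.single (Sum.inr ⟨i, (a, m)⟩) 1 : Idx κ ι n → L)
  map_add' u v := by
    simp only [Pi.add_apply, add_smul, Finset.sum_add_distrib]
  map_smul' c v := by
    simp only [Pi.smul_apply, smul_eq_mul, mul_smul, Finset.smul_sum, RingHom.id_apply]

/-- the projection -/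
def pr (κ : Type) (L : Type) [CommRing L] (i : I) (m : Fin (n i)) :
    (Idx κ ι n → L) →ₗ[L] (ι i → L) :=
  LinearMap.funLeft L L fun a => Sum.inr ⟨i, (a, m)⟩

theorem incB_inl (v : κ → L) (a : κ) : incB ι n L v (Sum.inl a) = v a := rfl

theorem incB_inr (v : κ → L) (y : Σ i, ι i × Fin (n i)) : incB ι n L v (Sum.inr y) = 0 := rfl

theorem prB_apply (x : Idx κ ι n → L) (a : κ) : prB ι n L x a = x (Sum.inl a) := rfl

theorem pr_apply (i : I) (m : Fin (n i)) (x : Idx κ ι n → L) (a : ι i) :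
    pr κ L i m x a = x (Sum.inr ⟨i, (a, m)⟩) := rfl

theorem inc_inl (i : I) (m : Fin (n i)) (v : ι i → L) (a : κ) : inc κ L i m v (Sum.inl a) = 0 := by
  change (∑ b, v b • (Pi.single (Sum.inr ⟨i, (b, m)⟩) 1 : Idx κ ι n → L)) (Sum.inl a) = 0
  rw [Finset.sum_apply]
  refine Finset.sum_eq_zero fun b _ => ?_
  rw [Pi.smul_apply, Pi.single_eq_of_ne (by simp), smul_zero]

theorem inc_ne {i i' : I} (h : i' ≠ i) (m : Fin (n i)) (v : ι i → L) (a : ι i') (m' : Fin (n i')) :
    inc κ L i m v (Sum.inr ⟨i', (a, m')⟩) = 0 := by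
  change (∑ b, v b • (Pi.single (Sum.inr ⟨i, (b, m)⟩) 1 : Idx κ ι n → L)) _ = 0
  rw [Finset.sum_apply]
  refine Finset.sum_eq_zero fun b _ => ?_
  rw [Pi.smul_apply, Pi.single_eq_of_ne, smul_zero]
  intro h1
  exact h (congrArg Sigma.fst (Sum.inr_injective h1))

theorem inc_eq (i : I) (m : Fin (n i)) (v : ι i → L) (a : ι i) (m' : Fin (n i)) :
    inc κ L i m v (Sum.inr ⟨i, (a, m')⟩) = if m' = m then v a else 0 := by
  change (∑ b, v b • (Pi.single (Sum.inr ⟨i, (b, m)⟩) 1 : Idx κ ι n → L)) _ = _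
  rw [Finset.sum_apply]
  split_ifs with h
  · subst h
    rw [Finset.sum_eq_single a]
    · rw [Pi.smul_apply, Pi.single_eq_same, smul_eq_mul, mul_one]
    · intro b _ hb
      rw [Pi.smul_apply, Pi.single_eq_of_ne, smul_zero]
      intro h1
      have h2 := Sum.inr_injective h1
      have h3 := eq_of_heq (Sigma.mk.inj_iff.1 h2).2
      exact hb (congrArg Prod.fst h3).symm
    · intro h
      exact absurd (Finset.mem_univ a) h
  · refine Finset.sum_eq_zero fun b _ => ?_
    rw [Pi.smul_apply, Pi.single_eq_of_ne, smul_zero]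
    intro h1
    have h2 := Sum.inr_injective h1
    have h3 := eq_of_heq (Sigma.mk.inj_iff.1 h2).2
    exact h (congrArg Prod.snd h3)

theorem prB_incB (v : κ → L) : prB ι n L (incB ι n L v) = v := rfl

theorem pr_inc (i : I) (m : Fin (n i)) (v : ι i → L) : pr κ L i m (inc κ L i m v) = v := by
  funext a
  rw [pr_apply, inc_eq, if_pos rfl]

theorem pr_inc_ne (i : I) {m m' : Fin (n i)} (h : m' ≠ m) (v : ι i → L) :
    pr κ L i m' (inc κ L i m v) = 0 := by
  funext a
  rw [pr_apply, inc_eq, if_neg h]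
  rfl

theorem pr_inc_ne' {i i' : I} (h : i' ≠ i) (m : Fin (n i)) (m' : Fin (n i')) (v : ι i → L) :
    pr κ L i' m' (inc κ L i m v) = 0 := by
  funext a
  rw [pr_apply, inc_ne h]
  rfl

theorem prB_inc (i : I) (m : Fin (n i)) (v : ι i → L) : prB ι n L (inc κ L i m v) = 0 := by
  funext a
  rw [prB_apply, inc_inl]
  rfl

theorem pr_incB (i : I) (m : Fin (n i)) (v : κ → L) : pr κ L i m (incB ι n L v) = 0 := rfl

theorem decomp (x : Idx κ ι n → L) :
    x = incB ι n L (prB ι n L x) + ∑ i, ∑ m, inc κ L i m (pr κ L i m x) := by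
  funext y
  rw [Pi.add_apply, Finset.sum_apply]
  rcases y with a | ⟨i, a, m⟩
  · rw [incB_inl, prB_apply, Finset.sum_eq_zero, add_zero]
    intro i _
    rw [Finset.sum_apply]
    exact Finset.sum_eq_zero fun m _ => inc_inl i m _ a
  · rw [incB_inr, zero_add, Finset.sum_eq_single i]
    · rw [Finset.sum_apply, Finset.sum_eq_single m]
      · rw [inc_eq, if_pos rfl, pr_apply]
      · intro m' _ hm
        rw [inc_eq, if_neg hm.symm]
      · intro h
        exact absurd (Finset.mem_univ m) h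
    · intro i' _ hi
      rw [Finset.sum_apply]
      exact Finset.sum_eq_zero fun m' _ => inc_ne hi.symm _ _ _ _
    · intro h
      exact absurd (Finset.mem_univ i) h

theorem ext_blk {W : Type} [AddCommGroup W] [Module L W] {f g : (Idx κ ι n → L) →ₗ[L] W}
    (hB : ∀ v, f (incB ι n L v) = g (incB ι n L v))
    (h : ∀ i m v, f (inc κ L i m v) = g (inc κ L i m v)) : f = g := by
  apply LinearMap.ext
  intro x
  rw [decomp x]
  simp only [map_add, map_sum, hB, h]

theorem single_inl (a : κ) : (Pi.single (Sum.inl a) 1 : Idx κ ι n → L) =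
    incB ι n L (Pi.single a 1) := by
  funext x
  rcases x with b | y
  · rw [incB_inl]
    by_cases h : b = a
    · subst h
      rw [Pi.single_eq_same, Pi.single_eq_same]
    · rw [Pi.single_eq_of_ne h, Pi.single_eq_of_ne (fun h1 => h (Sum.inl_injective h1))]
  · rw [incB_inr, Pi.single_eq_of_ne (by simp)]

theorem single_inr (i : I) (a : ι i) (m : Fin (n i)) :
    (Pi.single (Sum.inr ⟨i, (a, m)⟩) 1 : Idx κ ι n → L) = inc κ L i m (Pi.single a 1) := by
  change _ = ∑ b, (Pi.single a 1 : ι i → L) b • (Pi.single (Sum.inr ⟨i, (b, m)⟩) 1 : Idx κ ι n → L)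
  rw [Finset.sum_eq_single a]
  · rw [Pi.single_eq_same, one_smul]
  · intro b _ hb
    rw [Pi.single_eq_of_ne hb, zero_smul]
  · intro h
    exact absurd (Finset.mem_univ a) h

/-- the action of a block diagonal matrix -/
theorem blocks_incB (gB : Matrix κ κ L) (g : ∀ i, Matrix (ι i) (ι i) L) (v : κ → L) :
    (blocks n gB g).mulVec (incB ι n L v) = incB ι n L (gB.mulVec v) := by
  funext x
  rw [Matrix.mulVec, dotProduct, Fintype.sum_sum_type]
  rcases x with a | x
  · rw [incB_inl]
    simp only [incB_inr, mul_zero, Finset.sum_const_zero, add_zero, incB_inl, blocks_inl]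
    rfl
  · rw [incB_inr]
    simp only [incB_inr, mul_zero, Finset.sum_const_zero, add_zero, blocks_inr_inl, zero_mul]

theorem blocks_prB (gB : Matrix κ κ L) (g : ∀ i, Matrix (ι i) (ι i) L) (x : Idx κ ι n → L) :
    prB ι n L ((blocks n gB g).mulVec x) = gB.mulVec (prB ι n L x) := by
  funext a
  rw [prB_apply, Matrix.mulVec, dotProduct, Fintype.sum_sum_type]
  simp only [blocks_inl_inr, zero_mul, Finset.sum_const_zero, add_zero, blocks_inl]
  rfl

theorem blocks_pr (gB : Matrix κ κ L) (g : ∀ i, Matrix (ι i) (ι i) L) (i : I) (m : Fin (n i))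
    (x : Idx κ ι n → L) :
    pr κ L i m ((blocks n gB g).mulVec x) = (g i).mulVec (pr κ L i m x) := by
  funext a
  rw [pr_apply, Matrix.mulVec, dotProduct, Fintype.sum_sum_type]
  simp only [blocks_inr_inl, zero_mul, Finset.sum_const_zero, zero_add]
  rw [Fintype.sum_sigma, Finset.sum_eq_single i]
  · rw [Fintype.sum_prod_type]
    rw [Matrix.mulVec, dotProduct]
    refine Finset.sum_congr rfl fun b _ => ?_
    rw [Finset.sum_eq_single m]
    · rw [blocks_eq, if_pos rfl, pr_apply]
    · intro m' _ hm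
      rw [blocks_eq, if_neg hm.symm, zero_mul]
    · intro h
      exact absurd (Finset.mem_univ m) h
  · intro i' _ hi
    refine Finset.sum_eq_zero fun y _ => ?_
    rw [blocks_ne _ _ hi.symm, zero_mul]
  · intro h
    exact absurd (Finset.mem_univ i) h

theorem blocks_inc (gB : Matrix κ κ L) (g : ∀ i, Matrix (ι i) (ι i) L) (i : I) (m : Fin (n i))
    (v : ι i → L) :
    (blocks n gB g).mulVec (inc κ L i m v) = inc κ L i m ((g i).mulVec v) := by
  rw [decomp ((blocks n gB g).mulVec (inc κ L i m v)), blocks_prB, prB_inc, Matrix.mulVec_zero,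
    map_zero, zero_add, Finset.sum_eq_single i]
  · rw [Finset.sum_eq_single m]
    · rw [blocks_pr, pr_inc]
    · intro m' _ hm
      rw [blocks_pr, pr_inc_ne i hm, Matrix.mulVec_zero, map_zero]
    · intro h
      exact absurd (Finset.mem_univ m) h
  · intro i' _ hi
    refine Finset.sum_eq_zero fun m' _ => ?_
    rw [blocks_pr, pr_inc_ne' hi, Matrix.mulVec_zero, map_zero]
  · intro h
    exact absurd (Finset.mem_univ i) h

end op

end Pool.Agent.X292.ZP
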