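import Pool.Agent.X292.ZP.Pol
import Pool.Agent.W528.ZC.Eqs

/-!
# The identity component of the direct sum, and the common form
-/

set_option linter.unusedSectionVars false

namespace Pool.Agent.X292.ZP

open Module MvPolynomial
open Pool.Agent.W528.ZC (InZ I0 ev sub ev_sub InIdentityComponent Vanishes val repM repM_apply
  toM_repM toM_mul toM inIC_iff InZ_form InZ_comm bf bf_inj bf_mul bf_smul bf_apply toM_toLin
  toLin_toM lef lef_iff InLefschetz mapQ IsZeroOf inIC_sub)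

noncomputable section

section sim

variable {k : Type} [Field k] [CharZero k] {K : Type} [Field K] [Algebra k K] {τ : Type}
  [Fintype τ] [DecidableEq τ] {Γ : Type} [Group Γ] {ρ : Γ →* Matrix τ τ k} {χ : Γ →* k}
  {ψ : Matrix τ τ k}

theorem unit_mK (hψ : IsUnit ψ.det) : IsUnit (mK K ψ).det := by
  have h1 := (algebraMap k K).map_det ψ
  rw [RingHom.mapMatrix_apply] at h1
  change IsUnit (ψ.map (algebraMap k K)).det
  rw [← h1]
  exact hψ.map _

/-- the identity component consists of similitudes -/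
theorem ic_sim (hf : ∀ s, (ρ s).transpose * ψ * ρ s = χ s • ψ) (hψ : IsUnit ψ.det)
    {g : Matrix τ τ K} (hg : IsUnit g.det) (hz : InIdentityComponent ρ g) :
    ∃ c : K, c ≠ 0 ∧ Sim (mK K ψ) g c := by
  rw [inIC_iff] at hz
  have hω := fK_inv (K := K) hf
  by_cases h0 : bf (mK K ψ) = 0
  · refine ⟨1, one_ne_zero, ?_⟩
    have h1 : ∀ M : Matrix τ τ K, M = 0 := by
      intro M
      have h2 : mK K ψ = 0 := bf_inj fun u v => by
        rw [h0, bf_apply, Matrix.zero_mulVec, dotProduct_zero]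
        rfl
      have h3 := Matrix.mul_nonsing_inv _ (unit_mK (K := K) hψ)
      rw [h2, zero_mul] at h3
      rw [← mul_one M, ← h3, mul_zero]
    unfold Sim
    rw [h1 (g.transpose * _ * g), h1 ((1 : K) • _)]
  · obtain ⟨c, hc⟩ := InZ_form _ hω h0 hz
    have h1 : g.transpose * mK K ψ * g = c • mK K ψ := by
      refine bf_inj fun u v => ?_
      rw [← bf_mul, bf_smul, ← Matrix.toLin'_apply, ← Matrix.toLin'_apply]
      exact hc u v
    refine ⟨c, ?_, h1⟩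
    rintro rfl
    rw [zero_smul] at h1
    apply h0
    have h2 : mK K ψ = 0 := by
      have h3 : (g.transpose)⁻¹ * (g.transpose * mK K ψ * g) * g⁻¹ = mK K ψ := by
        have hgt : IsUnit g.transpose.det := by rwa [Matrix.det_transpose]
        rw [mul_assoc g.transpose, ← mul_assoc, Matrix.nonsing_inv_mul _ hgt, one_mul,
          mul_assoc, Matrix.mul_nonsing_inv _ hg, mul_one]
      rw [← h3, h1, mul_zero, zero_mul]
    rw [h2]
    refine LinearMap.ext fun u => LinearMap.ext fun v => ?_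
    rw [bf_apply, Matrix.zero_mulVec, dotProduct_zero]
    rfl

/-- similitudes are invertible -/
theorem Sim.unit {L : Type} [Field L] {ψ g : Matrix τ τ L} {c : L} (h : Sim ψ g c) (hc : c ≠ 0)
    (hψ : IsUnit ψ.det) : IsUnit g.det := by
  have h1 : (c⁻¹ • (ψ⁻¹ * g.transpose * ψ)) * g = 1 := by
    unfold Sim at h
    rw [smul_mul_assoc, mul_assoc, mul_assoc, ← mul_assoc g.transpose, h, mul_smul_comm, smul_smul,
      inv_mul_cancel₀ hc, one_smul, Matrix.nonsing_inv_mul _ hψ]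
  have h2 := congrArg Matrix.det h1
  rw [Matrix.det_mul, Matrix.det_one] at h2
  exact IsUnit.of_mul_eq_one _ (by rw [mul_comm]; exact h2)

end sim

variable {I : Type} [Fintype I] [DecidableEq I] {κ : Type} [Fintype κ] [DecidableEq κ]
  {ι : I → Type} [∀ i, Fintype (ι i)] [∀ i, DecidableEq (ι i)] {Γ : Type} [Group Γ]
  {n : I → ℕ}

theorem unit_blocks {k : Type} [Field k] {ψB : Matrix κ κ k} {ψ : ∀ i, Matrix (ι i) (ι i) k}
    (hB : IsUnit ψB.det) (h : ∀ i, IsUnit (ψ i).det) : IsUnit (blocks n ψB ψ).det := by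
  rw [← Matrix.isUnit_iff_isUnit_det]
  refine IsUnit.of_mul_eq_one (blocks n ψB⁻¹ fun i => (ψ i)⁻¹) ?_
  rw [blocks_mul, Matrix.mul_nonsing_inv _ hB]
  have h1 : (fun i => ψ i * (ψ i)⁻¹) = fun i => (1 : Matrix (ι i) (ι i) k) := by
    funext i
    exact Matrix.mul_nonsing_inv _ (h i)
  rw [h1, blocks_one]

section field

variable {k : Type} [Field k] [CharZero k] {K : Type} [Field K] [Algebra k K]
  {ρB : Γ →* Matrix κ κ k} {ρ : ∀ i, Γ →* Matrix (ι i) (ι i) k}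
  {χ : Γ →* k} {ψB : Matrix κ κ k} {ψ : ∀ i, Matrix (ι i) (ι i) k}
  (hn : ∀ i, 0 < n i)
  (hfB : ∀ s, (ρB s).transpose * ψB * ρB s = χ s • ψB)
  (hfi : ∀ i s, (ρ i s).transpose * ψ i * ρ i s = χ s • ψ i)
  (hψB : IsUnit ψB.det) (hnd : ∀ i, IsUnit (ψ i).det)

include hn in
/-- the block structure -/
theorem ic_blocks {g : Matrix (Idx κ ι n) (Idx κ ι n) K}
    (h : InIdentityComponent (sumRep n ρB ρ) g) : ∃ gB gA, g = blocks n gB gA := by
  rw [inIC_iff] at h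
  have hB : ∀ v, Matrix.toLin' g (incB ι n K v) =
      incB ι n K (prB ι n K (Matrix.toLin' g (incB ι n K v))) := by
    intro v
    have h1 := InZ_comm h (P := incB ι n K ∘ₗ prB ι n K) ⟨⊤, inferInstance, fun s _ => by
      apply LinearMap.ext
      intro x
      change incB ι n K (prB ι n K (RT n ρB ρ K s x)) =
        RT n ρB ρ K s (incB ι n K (prB ι n K x))
      rw [RT_prB, RT_incB]⟩
    exact LinearMap.congr_fun h1 (incB ι n K v)
  have hI : ∀ i (m : Fin (n i)) v, Matrix.toLin' g (inc κ K i m v) =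
      inc κ K i m (pr κ K i ⟨0, hn i⟩ (Matrix.toLin' g (inc κ K i ⟨0, hn i⟩ v))) := by
    intro i m v
    have h1 := InZ_comm h (P := inc κ K i m ∘ₗ pr κ K i ⟨0, hn i⟩) ⟨⊤, inferInstance, fun s _ => by
      apply LinearMap.ext
      intro x
      change inc κ K i m (pr κ K i ⟨0, hn i⟩ (RT n ρB ρ K s x)) =
        RT n ρB ρ K s (inc κ K i m (pr κ K i ⟨0, hn i⟩ x))
      rw [RT_pr, RT_inc]⟩
    have h2 := LinearMap.congr_fun h1 (inc κ K i ⟨0, hn i⟩ v)
    change Matrix.toLin' g (inc κ K i m (pr κ K i ⟨0, hn i⟩ (inc κ K i ⟨0, hn i⟩ v))) =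
      inc κ K i m (pr κ K i ⟨0, hn i⟩ (Matrix.toLin' g (inc κ K i ⟨0, hn i⟩ v))) at h2
    rwa [pr_inc] at h2
  refine ⟨LinearMap.toMatrix' (prB ι n K ∘ₗ Matrix.toLin' g ∘ₗ incB ι n K),
    fun i => LinearMap.toMatrix' (pr κ K i ⟨0, hn i⟩ ∘ₗ Matrix.toLin' g ∘ₗ
      inc κ K i ⟨0, hn i⟩), ?_⟩
  apply Matrix.toLin'.injective
  refine ext_blk (fun v => ?_) (fun i m v => ?_)
  · rw [hB, Matrix.toLin'_apply (blocks _ _ _), blocks_incB, LinearMap.toMatrix'_mulVec]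
    rfl
  · rw [hI, Matrix.toLin'_apply (blocks _ _ _), blocks_inc, LinearMap.toMatrix'_mulVec]
    rfl

theorem ev_rename_inl (x : Matrix (Idx κ ι n) (Idx κ ι n) K) (f : MvPolynomial (κ × κ) K) :
    ev x (rename (Prod.map Sum.inl Sum.inl) f) = ev (x.submatrix Sum.inl Sum.inl) f := by
  unfold ev
  rw [aeval_rename]
  rfl

/-- the first block -/
theorem ic_first {gB : Matrix κ κ K} {gA : ∀ i, Matrix (ι i) (ι i) K}
    (h : InIdentityComponent (sumRep n ρB ρ) (blocks n gB gA)) : InIdentityComponent ρB gB := by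
  rintro f ⟨Δ, hΔ, hf⟩
  have h1 := h (rename (Prod.map Sum.inl Sum.inl) f) ⟨Δ, hΔ, fun s hs => by
    change ev _ _ = 0
    rw [ev_rename_inl]
    exact hf s hs⟩
  change ev _ _ = 0 at h1
  rw [ev_rename_inl] at h1
  exact h1

include hn hfB hfi hψB hnd in
theorem inIC_to {g : Matrix (Idx κ ι n) (Idx κ ι n) K} (hg : IsUnit g.det)
    (h : InIdentityComponent (sumRep n ρB ρ) g) :
    ∃ gB gA, ∃ c : K, c ≠ 0 ∧ g = blocks n gB gA ∧ InIdentityComponent ρB gB ∧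
      Sim (mK K ψB) gB c ∧ ∀ i, Sim (mK K (ψ i)) (gA i) c := by
  obtain ⟨c, hc, hs⟩ := ic_sim (sum_form hfB hfi) (unit_blocks hψB hnd) hg h
  obtain ⟨gB, gA, rfl⟩ := ic_blocks hn h
  have hs' : (blocks n gB gA).transpose * mK K (blocks n ψB ψ) * blocks n gB gA =
      c • mK K (blocks n ψB ψ) := hs
  have hm : mK K (blocks n ψB ψ) = blocks n (mK K ψB) fun i => mK K (ψ i) :=
    blocks_map _ (map_zero _) _ _
  rw [hm, blocks_transpose, blocks_mul, blocks_mul, blocks_smul] at hs'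
  obtain ⟨h1, h2⟩ := blocks_inj hn hs'
  exact ⟨gB, gA, c, hc, rfl, ic_first h, h1, fun i => congrFun h2 i⟩

include hn hfB hfi hψB hnd in
/-- **The identity component of the direct sum.** -/
theorem inIC_main [CharZero K] [IsAlgClosed K] (hal : ∀ i, (ψ i).transpose = -ψ i)
    (hG : GoodFamily (chK χ K) (repM ρB K) fun i => repM (ρ i) K)
    (hχ : ∀ Δ : Subgroup Γ, Δ.FiniteIndex → ∃ s ∈ Δ, χ s ≠ 1)
    {g : Matrix (Idx κ ι n) (Idx κ ι n) K} (hg : IsUnit g.det) :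
    InIdentityComponent (sumRep n ρB ρ) g ↔
    ∃ gB gA, ∃ c : K, c ≠ 0 ∧ g = blocks n gB gA ∧ InIdentityComponent ρB gB ∧
      Sim (mK K ψB) gB c ∧ ∀ i, Sim (mK K (ψ i)) (gA i) c := by
  constructor
  · exact inIC_to hn hfB hfi hψB hnd hg
  · rintro ⟨gB, gA, c, hc, rfl, h1, h2, h3⟩
    exact inIC_of hn hfB hfi hal hnd hG hψB hχ hc h1 h2 h3

end field

section form

variable {ψB : Matrix κ κ ℚ} {ψ : ∀ i, Matrix (ι i) (ι i) ℚ}

/-- the matrix of the variables -/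
def gen (τ : Type) : Matrix τ τ (MvPolynomial (τ × τ) ℚ) := Matrix.of fun a b => X (a, b)

/-- the first block of the matrix of the variables -/
def genB (κ : Type) (ι : I → Type) (n : I → ℕ) :
    Matrix κ κ (MvPolynomial (Idx κ ι n × Idx κ ι n) ℚ) :=
  Matrix.of fun a b => X (Sum.inl a, Sum.inl b)

/-- the other blocks -/
def genA (κ : Type) (ι : I → Type) (hn : ∀ i, 0 < n i) (i : I) :
    Matrix (ι i) (ι i) (MvPolynomial (Idx κ ι n × Idx κ ι n) ℚ) :=
  Matrix.of fun a b => X (Sum.inr ⟨i, (a, ⟨0, hn i⟩)⟩, Sum.inr ⟨i, (b, ⟨0, hn i⟩)⟩)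

/-- the equations of the block structure -/
def Sblk (κ : Type) (ι : I → Type) (hn : ∀ i, 0 < n i) :
    Set (MvPolynomial (Idx κ ι n × Idx κ ι n) ℚ) :=
  {q | ∃ x y, q = gen (Idx κ ι n) x y - blocks n (genB κ ι n) (genA κ ι hn) x y}

variable {L : Type} [Field L] [Algebra ℚ L]

/-- evaluation at a matrix -/
def evQ {τ : Type} (g : Matrix τ τ L) : MvPolynomial (τ × τ) ℚ →ₐ[ℚ] L :=
  aeval fun p => g p.1 p.2

theorem gen_map {τ : Type} (g : Matrix τ τ L) : (gen τ).map (evQ g) = g := by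
  ext a b
  rw [Matrix.map_apply]
  exact aeval_X _ _

theorem evQ_aeval {τ τ' : Type} (g : Matrix τ τ L)
    (M : Matrix τ' τ' (MvPolynomial (τ × τ) ℚ)) (f : MvPolynomial (τ' × τ') ℚ) :
    evQ g (aeval (fun p => M p.1 p.2) f) = evQ (M.map (evQ g)) f := by
  unfold evQ
  rw [comp_aeval_apply]
  rfl

theorem isZeroOf_iff {τ : Type} [Fintype τ] [DecidableEq τ] (S : Set (MvPolynomial (τ × τ) ℚ))
    (g : Matrix τ τ L) : IsZeroOf S g ↔ ∀ f ∈ S, evQ g f = 0 := Iff.rfl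

theorem Sblk_iff (hn : ∀ i, 0 < n i) (g : Matrix (Idx κ ι n) (Idx κ ι n) L) :
    IsZeroOf (Sblk κ ι hn) g ↔ ∃ gB gA, g = blocks n gB gA := by
  have h1 : (blocks n (genB κ ι n) (genA κ ι hn)).map (evQ g) =
      blocks n (g.submatrix Sum.inl Sum.inl) fun i => g.submatrix
        (fun a => Sum.inr ⟨i, (a, ⟨0, hn i⟩)⟩) fun a => Sum.inr ⟨i, (a, ⟨0, hn i⟩)⟩ := by
    rw [blocks_map _ (map_zero _)]
    congr 1
    · ext a b
      rw [Matrix.map_apply]
      exact aeval_X _ _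
    · funext i
      ext a b
      rw [Matrix.map_apply]
      exact aeval_X _ _
  rw [isZeroOf_iff]
  constructor
  · intro h
    refine ⟨_, _, Eq.trans ?_ h1⟩
    ext x y
    have h2 := h _ ⟨x, y, rfl⟩
    rw [map_sub, sub_eq_zero] at h2
    have h3 := congrFun (congrFun (gen_map g) x) y
    rw [Matrix.map_apply] at h3
    rw [← h3, h2]
    rfl
  · rintro ⟨gB, gA, rfl⟩ _ ⟨x, y, rfl⟩
    rw [map_sub, sub_eq_zero]
    have h3 := congrFun (congrFun (gen_map (blocks n gB gA)) x) y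
    rw [Matrix.map_apply] at h3
    have h4 := congrFun (congrFun h1 x) y
    rw [Matrix.map_apply] at h4
    rw [h3, h4]
    congr 1
    funext i
    ext a b
    rw [Matrix.submatrix_apply, blocks_eq, if_pos rfl]

theorem rename_iff (S : Set (MvPolynomial (κ × κ) ℚ)) (g : Matrix (Idx κ ι n) (Idx κ ι n) L) :
    IsZeroOf ((rename (Prod.map Sum.inl Sum.inl)) '' S) g ↔
      IsZeroOf S (g.submatrix Sum.inl Sum.inl) := by
  rw [isZeroOf_iff, isZeroOf_iff]
  have h1 : ∀ f : MvPolynomial (κ × κ) ℚ, evQ g (rename (Prod.map Sum.inl Sum.inl) f) =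
      evQ (g.submatrix Sum.inl Sum.inl) f := by
    intro f
    unfold evQ
    rw [aeval_rename]
    rfl
  constructor
  · intro h f hf
    rw [← h1]
    exact h _ ⟨f, hf, rfl⟩
  · rintro h _ ⟨f, hf, rfl⟩
    rw [h1]
    exact h f hf

theorem isZeroOf_union {τ : Type} [Fintype τ] [DecidableEq τ]
    (S S' : Set (MvPolynomial (τ × τ) ℚ)) (g : Matrix τ τ L) :
    IsZeroOf (S ∪ S') g ↔ IsZeroOf S g ∧ IsZeroOf S' g := by
  rw [isZeroOf_iff, isZeroOf_iff, isZeroOf_iff]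
  constructor
  · exact fun h => ⟨fun f hf => h f (Or.inl hf), fun f hf => h f (Or.inr hf)⟩
  · rintro ⟨h1, h2⟩ f (hf | hf)
    · exact h1 f hf
    · exact h2 f hf

theorem lef_sim {τ : Type} [Fintype τ] [DecidableEq τ] {ψ : Matrix τ τ ℚ} (hψ : IsUnit ψ.det)
    {g : Matrix τ τ L} (hg : IsUnit g.det) :
    IsZeroOf (lef ψ ∅) g ↔ ∃ c : L, c ≠ 0 ∧ Sim (mapQ L ψ) g c := by
  refine (lef_iff (E := ∅) hψ L g hg).trans ?_
  simp only [Set.mem_empty_iff_false, false_implies, implies_true, and_true]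
  rfl

/-- the equations of the direct sum -/
def Ssum (hn : ∀ i, 0 < n i) (ψB : Matrix κ κ ℚ) (ψ : ∀ i, Matrix (ι i) (ι i) ℚ)
    (S : Set (MvPolynomial (κ × κ) ℚ)) : Set (MvPolynomial (Idx κ ι n × Idx κ ι n) ℚ) :=
  (Sblk κ ι hn ∪ lef (blocks n ψB ψ) ∅) ∪ ((rename (Prod.map Sum.inl Sum.inl)) '' S)

theorem Ssum_iff (hn : ∀ i, 0 < n i) (hψB : IsUnit ψB.det) (hnd : ∀ i, IsUnit (ψ i).det)
    (S : Set (MvPolynomial (κ × κ) ℚ)) {g : Matrix (Idx κ ι n) (Idx κ ι n) L}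
    (hg : IsUnit g.det) : IsZeroOf (Ssum hn ψB ψ S) g ↔
      ∃ gB gA, ∃ c : L, c ≠ 0 ∧ g = blocks n gB gA ∧ IsZeroOf S gB ∧ Sim (mapQ L ψB) gB c ∧
        ∀ i, Sim (mapQ L (ψ i)) (gA i) c := by
  unfold Ssum
  rw [isZeroOf_union, isZeroOf_union, Sblk_iff, lef_sim (unit_blocks hψB hnd) hg, rename_iff]
  have hm : mapQ L (blocks n ψB ψ) = blocks n (mapQ L ψB) fun i => mapQ L (ψ i) :=
    blocks_map _ (map_zero _) _ _
  have hkey : ∀ (gB : Matrix κ κ L) (gA : ∀ i, Matrix (ι i) (ι i) L) (c : L),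
      Sim (mapQ L (blocks n ψB ψ)) (blocks n gB gA) c ↔
        Sim (mapQ L ψB) gB c ∧ ∀ i, Sim (mapQ L (ψ i)) (gA i) c := by
    intro gB gA c
    unfold Sim
    rw [hm, blocks_transpose, blocks_mul, blocks_mul, blocks_smul]
    constructor
    · intro h
      obtain ⟨h1, h2⟩ := blocks_inj hn h
      exact ⟨h1, fun i => congrFun h2 i⟩
    · rintro ⟨h1, h2⟩
      rw [h1]
      congr 1
      funext i
      exact h2 i
  constructor
  · rintro ⟨⟨⟨gB, gA, rfl⟩, c, hc, hs⟩, hS⟩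
    exact ⟨gB, gA, c, hc, rfl, hS, ((hkey gB gA c).1 hs).1, ((hkey gB gA c).1 hs).2⟩
  · rintro ⟨gB, gA, c, hc, rfl, hS, h1, h2⟩
    exact ⟨⟨⟨gB, gA, rfl⟩, c, hc, (hkey gB gA c).2 ⟨h1, h2⟩⟩, hS⟩

end form

end

end Pool.Agent.X292.ZP
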