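import Mathlib
import Pool.Agent.W528.ZC.All
import Pool.Agent.W528.ZC.Lin

/-!
# Stable subspaces and semi-invariant forms on them
-/

set_option linter.unusedSectionVars false

namespace Pool.Agent.X292.ZP

open Module MvPolynomial Pool.Agent.W528.ZC

noncomputable section

variable {K : Type} [Field K] {τ : Type} [Fintype τ] [DecidableEq τ] {Γ : Type} [Group Γ]
  {R : Representation K Γ (τ → K)}

/-- the linear polynomial `φ (x u)` -/
def lin (φ : (τ → K) →ₗ[K] K) (u : τ → K) : MvPolynomial (τ × τ) K :=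
  ∑ q, ∑ p, C (φ (Pi.single p 1) * u q) * X (p, q)

theorem apply_eq (x : Module.End K (τ → K)) (φ : (τ → K) →ₗ[K] K) (u : τ → K) :
    φ (x u) = ∑ q, ∑ p, (φ (Pi.single p 1) * u q) * toM x p q := by
  have h1 : u = ∑ q, u q • (Pi.single q 1 : τ → K) := by
    funext i
    rw [Finset.sum_apply, Finset.sum_eq_single i]
    · rw [Pi.smul_apply, Pi.single_eq_same, smul_eq_mul, mul_one]
    · intro k _ hk
      rw [Pi.smul_apply, Pi.single_eq_of_ne hk.symm, smul_zero]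
    · intro h
      exact absurd (Finset.mem_univ i) h
  conv_lhs => rw [h1]
  rw [map_sum, map_sum]
  refine Finset.sum_congr rfl fun q _ => ?_
  rw [map_smul, map_smul, col, map_sum, Finset.smul_sum]
  refine Finset.sum_congr rfl fun p _ => ?_
  rw [map_smul, smul_eq_mul, smul_eq_mul]
  ring

theorem ev_lin (x : Module.End K (τ → K)) (φ : (τ → K) →ₗ[K] K) (u : τ → K) :
    ev (toM x) (lin φ u) = φ (x u) := by
  rw [apply_eq]
  unfold lin
  simp only [map_sum, map_mul (ev (toM x)), ev_C, ev_X]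

theorem ev_D_lin (y : Module.End K (τ → K)) (φ : (τ → K) →ₗ[K] K) (u : τ → K) :
    ev (1 : Matrix τ τ K) (D (toM y) (lin φ u)) = φ (y u) := by
  rw [apply_eq]
  unfold lin
  simp only [map_sum, ev_D_mul, ev_D_C, mul_zero, add_zero, ev_C, ev_D_X, one_mul]

/-- The Lie algebra preserves the subspaces which are stable under a subgroup of finite index. -/
theorem Lg_stab {U : Submodule K (τ → K)} {Δ : Subgroup Γ} (hΔ : Δ.FiniteIndex)
    (hU : ∀ g ∈ Δ, ∀ u ∈ U, R g u ∈ U) {y : Module.End K (τ → K)} (hy : y ∈ Lg R) {u : τ → K}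
    (hu : u ∈ U) : y u ∈ U := by
  by_contra hcon
  obtain ⟨φ, hφ, hφU⟩ := Submodule.exists_le_ker_of_notMem hcon
  have h1 : lin φ u ∈ I0 R := ⟨Δ, hΔ, fun g hg => by
    rw [ev_lin]
    exact hφU (hU g hg u hu)⟩
  obtain ⟨Δ', hΔ', h2⟩ := hy _ h1
  have h3 := h2 1 Δ'.one_mem
  rw [map_one, toM_one, ev_D_lin] at h3
  exact hφ h3

/-- The quadratic polynomial `F (x u) (x v)`. -/
def qv (F : (τ → K) →ₗ[K] (τ → K) →ₗ[K] K) (u v : τ → K) : MvPolynomial (τ × τ) K :=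
  ∑ i, ∑ j, C (u i * v j) * qf F i j

theorem bil_eq (G : (τ → K) →ₗ[K] (τ → K) →ₗ[K] K) (u v : τ → K) :
    G u v = ∑ i, ∑ j, (u i * v j) * G (Pi.single i 1) (Pi.single j 1) := by
  have h1 : ∀ u : τ → K, u = ∑ q, u q • (Pi.single q 1 : τ → K) := by
    intro u
    funext i
    rw [Finset.sum_apply, Finset.sum_eq_single i]
    · rw [Pi.smul_apply, Pi.single_eq_same, smul_eq_mul, mul_one]
    · intro k _ hk
      rw [Pi.smul_apply, Pi.single_eq_of_ne hk.symm, smul_zero]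
    · intro h
      exact absurd (Finset.mem_univ i) h
  rw [form_sum G u v u v (h1 u) (h1 v)]
  refine Finset.sum_congr rfl fun i _ => Finset.sum_congr rfl fun j _ => ?_
  rw [mul_comm]

theorem ev_qv (F : (τ → K) →ₗ[K] (τ → K) →ₗ[K] K) (x : Module.End K (τ → K)) (u v : τ → K) :
    ev (toM x) (qv F u v) = F (x u) (x v) := by
  have h1 := bil_eq ((F.comp x).compl₂ x) u v
  change F (x u) (x v) = _ at h1
  rw [h1]
  unfold qv
  simp only [map_sum, map_mul (ev (toM x)), ev_C, ev_qf]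
  rfl

theorem ev_D_qv (F : (τ → K) →ₗ[K] (τ → K) →ₗ[K] K) (y : Module.End K (τ → K)) (u v : τ → K) :
    ev (1 : Matrix τ τ K) (D (toM y) (qv F u v)) = F (y u) v + F u (y v) := by
  have h1 := bil_eq (F.comp y + F.compl₂ y) u v
  change F (y u) v + F u (y v) = _ at h1
  rw [h1]
  unfold qv
  simp only [map_sum, ev_D_mul, ev_D_C, mul_zero, add_zero, ev_C, ev_D_qf]
  rfl

variable {χ : Γ → K} {ω : (τ → K) →ₗ[K] (τ → K) →ₗ[K] K}
  (hω : ∀ s u v, ω (R s u) (R s v) = χ s * ω u v)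

include hω in
/-- Semi-invariant forms on stable subspaces. -/
theorem Lg_form_on (h0 : ∃ a b, ω a b ≠ 0) {U : Submodule K (τ → K)} {Δ : Subgroup Γ}
    (hΔ : Δ.FiniteIndex) {F : (τ → K) →ₗ[K] (τ → K) →ₗ[K] K}
    (hF : ∀ g ∈ Δ, ∀ u ∈ U, ∀ v ∈ U, F (R g u) (R g v) = χ g * F u v)
    {y : Module.End K (τ → K)} (hy : y ∈ Lg R) (hsk : ∀ u v, ω (y u) v + ω u (y v) = 0)
    {u v : τ → K} (hu : u ∈ U) (hv : v ∈ U) : F (y u) v + F u (y v) = 0 := by
  obtain ⟨a, b, hab⟩ := h0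
  have h1 : C (ω a b) * qv F u v - C (F u v) * qv ω a b ∈ I0 R := by
    refine ⟨Δ, hΔ, fun g hg => ?_⟩
    rw [map_sub, map_mul, map_mul, ev_C, ev_C, ev_qv, ev_qv, hω, hF g hg u hu v hv]
    ring
  obtain ⟨Δ', hΔ', h2⟩ := hy _ h1
  have h3 := h2 1 Δ'.one_mem
  rw [map_one, toM_one, map_sub, map_sub, ev_D_mul, ev_D_mul, ev_D_C, ev_D_C, mul_zero,
    mul_zero, add_zero, add_zero, ev_C, ev_C, ev_D_qv, ev_D_qv, hsk, mul_zero, sub_zero] at h3
  exact (mul_eq_zero.1 h3).resolve_left hab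

end

end Pool.Agent.X292.ZP
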