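import Pool.Agent.X292.ZP.Good
import Pool.Agent.X292.ZP.Lie
import Pool.Agent.W528.ZC.Fam

/-!
# Families of subspaces on which the Lie algebra of the Zariski closure acts
-/

set_option linter.unusedSectionVars false

namespace Pool.Agent.X292.ZP

open Module Finset Function Pool.Agent.TH125.Gal Pool.Agent.Y127.G Pool.Agent.Y127.C
  Pool.Agent.X292.SP Pool.Agent.X292.TG Pool.Agent.X292.TS Pool.Agent.X292.AV
open Pool.Agent.W528.ZC (Lg InZ Lg_br Lg_conj Lg_unip Lg_form hBR hCJ hUN)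

noncomputable section

variable {K : Type} [Field K] [CharZero K] {τ : Type} [Fintype τ] [DecidableEq τ] {Γ : Type}
  [Group Γ] (R : Representation K Γ (τ → K)) (ω : (τ → K) →ₗ[K] (τ → K) →ₗ[K] K)

/-- the skew operators in the Lie algebra -/
def NN : Submodule K (Module.End K (τ → K)) where
  carrier := {y | y ∈ Lg R ∧ ∀ u v, ω (y u) v + ω u (y v) = 0}
  zero_mem' := ⟨Submodule.zero_mem _, fun u v => by simp⟩
  add_mem' := by
    rintro y y' ⟨h1, h2⟩ ⟨h1', h2'⟩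
    refine ⟨Submodule.add_mem _ h1 h1', fun u v => ?_⟩
    rw [LinearMap.add_apply, LinearMap.add_apply, map_add, map_add, LinearMap.add_apply]
    linear_combination h2 u v + h2' u v
  smul_mem' := by
    rintro c y ⟨h1, h2⟩
    refine ⟨Submodule.smul_mem _ c h1, fun u v => ?_⟩
    rw [LinearMap.smul_apply, LinearMap.smul_apply, map_smul, map_smul, LinearMap.smul_apply,
      smul_eq_mul, smul_eq_mul]
    linear_combination c * h2 u v

variable {R ω}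

theorem NN_br {x y : Module.End K (τ → K)} (hx : x ∈ NN R ω) (hy : y ∈ NN R ω) :
    x * y - y * x ∈ NN R ω := by
  refine ⟨Lg_br hBR hx.1 hy.1, fun u v => ?_⟩
  have h3 := hx.2 (y u) v
  have h4 := hy.2 u (x v)
  have h5 := hy.2 (x u) v
  have h6 := hx.2 u (y v)
  rw [LinearMap.sub_apply, LinearMap.sub_apply, map_sub, map_sub, LinearMap.sub_apply,
    Module.End.mul_apply, Module.End.mul_apply, Module.End.mul_apply, Module.End.mul_apply]
  linear_combination h3 - h4 - h5 + h6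

variable {χ : Γ → K}

theorem NN_conj (hω : ∀ s u v, ω (R s u) (R s v) = χ s * ω u v) (s : Γ)
    {y : Module.End K (τ → K)} (hy : y ∈ NN R ω) : R s * y * R s⁻¹ ∈ NN R ω := by
  have hs : R s * R s⁻¹ = 1 := by rw [← map_mul, mul_inv_cancel, map_one]
  refine ⟨Lg_conj hCJ s hy.1, fun u v => ?_⟩
  have h3 : ∀ w, R s (R s⁻¹ w) = w := fun w => by
    rw [← Module.End.mul_apply, hs]
    rfl
  have h1 := hω s (y (R s⁻¹ u)) (R s⁻¹ v)
  have h2 := hω s (R s⁻¹ u) (y (R s⁻¹ v))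
  rw [h3] at h1 h2
  change ω (R s (y (R s⁻¹ u))) v + ω u (R s (y (R s⁻¹ v))) = 0
  rw [h1, h2, ← mul_add, hy.2, mul_zero]

theorem NN_unip (hω : ∀ s u v, ω (R s u) (R s v) = χ s * ω u v) (h0 : ∃ a b, ω a b ≠ 0) {γ : Γ}
    (h2 : (R γ - 1) * (R γ - 1) = 0) : R γ - 1 ∈ NN R ω := by
  have h1 : R γ - 1 ∈ Lg R := Lg_unip hUN γ h2
  obtain ⟨c, hc⟩ := Lg_form ω hω (by
    rintro rfl
    obtain ⟨a, b, hab⟩ := h0
    exact hab rfl) h1
  have hc0 : c = 0 := der_sq h0 h2 hc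
  exact ⟨h1, fun u v => by rw [hc, hc0, zero_mul]⟩

section fam

variable {X : Type} {T : X → Type} [∀ x, AddCommGroup (T x)] [∀ x, Module K (T x)]
  [∀ x, FiniteDimensional K (T x)] {j : ∀ x, T x →ₗ[K] (τ → K)}
  {l : ∀ x, (τ → K) →ₗ[K] T x}

/-- the operators on the members -/
def cmp (j : ∀ x, T x →ₗ[K] (τ → K)) (l : ∀ x, (τ → K) →ₗ[K] T x) :
    Module.End K (τ → K) →ₗ[K] (∀ x, T x →ₗ[K] T x) where
  toFun y x := l x ∘ₗ y ∘ₗ j x
  map_add' y y' := by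
    funext x
    rw [LinearMap.add_comp, LinearMap.comp_add]
    rfl
  map_smul' c y := by
    funext x
    rw [LinearMap.smul_comp, LinearMap.comp_smul]
    rfl

/-- the Lie algebra of the family -/
def mm (R : Representation K Γ (τ → K)) (ω : (τ → K) →ₗ[K] (τ → K) →ₗ[K] K)
    (j : ∀ x, T x →ₗ[K] (τ → K)) (l : ∀ x, (τ → K) →ₗ[K] T x) :
    Submodule K (∀ x, T x →ₗ[K] T x) := (NN R ω).map (cmp j l)

variable (hl : ∀ x v, l x (j x v) = v)
  (hst : ∀ x, ∃ Δ : Subgroup Γ, Δ.FiniteIndex ∧ ∀ g ∈ Δ, ∀ v, ∃ w, R g (j x v) = j x w)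

include hl hst in
theorem j_cmp {y : Module.End K (τ → K)} (hy : y ∈ Lg R) (x : X) (v : T x) :
    j x (cmp j l y x v) = y (j x v) := by
  obtain ⟨Δ, hΔ, h⟩ := hst x
  obtain ⟨w, hw⟩ := Lg_stab (U := LinearMap.range (j x)) hΔ (by
    rintro g hg _ ⟨v, rfl⟩
    obtain ⟨w, hw⟩ := h g hg v
    exact ⟨w, hw.symm⟩) hy (u := j x v) ⟨v, rfl⟩
  change j x (l x (y (j x v))) = _
  rw [← hw, hl]

include hl hst in
theorem mm_bk : ∀ D ∈ mm R ω j l, ∀ D' ∈ mm R ω j l, bk D D' ∈ mm R ω j l := by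
  rintro _ ⟨y, hy, rfl⟩ _ ⟨y', hy', rfl⟩
  refine ⟨y * y' - y' * y, NN_br hy hy', ?_⟩
  have h1 : ∀ (y y' : Module.End K (τ → K)), y' ∈ NN R ω → ∀ x v,
      cmp j l (y * y') x v = cmp j l y x (cmp j l y' x v) := by
    intro y y' hy' x v
    change l x (y (y' (j x v))) = l x (y (j x (cmp j l y' x v)))
    rw [j_cmp hl hst hy'.1]
  funext x
  apply LinearMap.ext
  intro v
  rw [map_sub, Pi.sub_apply, LinearMap.sub_apply, h1 _ _ hy', h1 _ _ hy]
  rfl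

/-- a member of symplectic type -/
structure SyMem (R : Representation K Γ (τ → K)) (ω : (τ → K) →ₗ[K] (τ → K) →ₗ[K] K)
    (χ : Γ →* K) (j : ∀ x, T x →ₗ[K] (τ → K)) (t : X) where
  ρ : Representation K Γ (T t)
  eqv : ∀ g v, R g (j t v) = j t (ρ g v)
  B : T t →ₗ[K] T t →ₗ[K] K
  hB : ∀ u v, ω (j t u) (j t v) = B u v
  al : ∀ x y, B x y = -B y x
  nd : ∀ x, (∀ y, B x y = 0) → x = 0
  inv : ∀ g x y, B (ρ g x) (ρ g y) = χ g * B x y
  irr : Pool.Agent.W528.Odd.SIrr ρ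
  γ : Γ
  sq : (R γ - 1) * (R γ - 1) = 0
  defect : (∀ p : ℕ, p.Prime → ∃ d, (d = finrank K (LinearMap.range (ρ γ - 1)) ∨
      ∃ γ' : Γ, (R γ' - 1) * (R γ' - 1) = 0 ∧ ∃ a : K, a ≠ 0 ∧
        d = finrank K (Module.End.maxGenEigenspace ((ρ γ - 1) * (ρ γ' - 1)) a)) ∧ ¬ p ∣ d) ∨
    (2 = finrank K (LinearMap.range (ρ γ - 1)) ∨
      ∃ γ' : Γ, (R γ' - 1) * (R γ' - 1) = 0 ∧ ∃ a : K, a ≠ 0 ∧
        2 = finrank K (Module.End.maxGenEigenspace ((ρ γ - 1) * (ρ γ' - 1)) a))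

variable {χ : Γ →* K} (hω : ∀ s u v, ω (R s u) (R s v) = χ s * ω u v)
  {t t' : X} (s : SyMem R ω χ j t) (s' : SyMem R ω χ j t')

include hl in
theorem SyMem.cmp_unip (s : SyMem R ω χ j t) (g : Γ) :
    cmp j l (R g - 1) t = s.ρ g - 1 := by
  apply LinearMap.ext
  intro v
  change l t (R g (j t v) - j t v) = _
  rw [s.eqv, ← map_sub, hl]
  rfl

include hl in
theorem SyMem.sq_of (s : SyMem R ω χ j t) {g : Γ} (h : (R g - 1) * (R g - 1) = 0) :
    (s.ρ g - 1) * (s.ρ g - 1) = 0 := by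
  apply LinearMap.ext
  intro v
  have h1 : ∀ v, j t ((s.ρ g - 1) v) = (R g - 1) (j t v) := by
    intro v
    rw [LinearMap.sub_apply, LinearMap.sub_apply, map_sub, s.eqv]
    rfl
  have h2 : j t (((s.ρ g - 1) * (s.ρ g - 1)) v) = 0 := by
    rw [Module.End.mul_apply, h1, h1, ← Module.End.mul_apply, h]
    rfl
  rw [← hl t (((s.ρ g - 1) * (s.ρ g - 1)) v), h2, map_zero]
  rfl

include hl hst in
theorem SyMem.cmp_conj (s : SyMem R ω χ j t) (g : Γ) {y : Module.End K (τ → K)} (hy : y ∈ NN R ω)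
    (v : T t) : cmp j l (R g * y * R g⁻¹) t v = s.ρ g (cmp j l y t (s.ρ g⁻¹ v)) := by
  change l t (R g (y (R g⁻¹ (j t v)))) = _
  rw [s.eqv, ← j_cmp hl hst hy.1, s.eqv, hl]

include hl hst hω in
/-- the member of the Lie algebra -/
theorem SyMem.exists_ms [IsAlgClosed K] (s : SyMem R ω χ j t) :
    ∃ o : Ms (mm R ω j l) t, o.B = s.B := by
  have hne : ∃ x : T t, x ≠ 0 := by
    by_contra hcon
    push Not at hcon
    have : Subsingleton (T t) := ⟨fun a b => (hcon a).trans (hcon b).symm⟩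
    have h0 : ∀ W : Submodule K (T t), finrank K W = 0 := fun W =>
      Module.finrank_zero_of_subsingleton
    rcases s.defect with h | h
    · obtain ⟨d, hd, h2⟩ := h 2 Nat.prime_two
      rcases hd with hd | ⟨γ', -, a, -, hd⟩
      · rw [h0] at hd
        exact h2 (hd ▸ dvd_zero 2)
      · rw [h0] at hd
        exact h2 (hd ▸ dvd_zero 2)
    · rcases h with hd | ⟨γ', -, a, -, hd⟩
      · rw [h0] at hd
        omega
      · rw [h0] at hd
        omega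
  have hB0 : ∃ a b, ω a b ≠ 0 := by
    obtain ⟨x, hx⟩ := hne
    by_contra hcon
    push Not at hcon
    exact hx (s.nd x fun y => by rw [← s.hB, hcon])
  have hskew : ∀ {D : ∀ i, T i →ₗ[K] T i}, D ∈ mm R ω j l → Skew s.B (D t) := by
    rintro _ ⟨y, hy, rfl⟩ u v
    rw [← s.hB, ← s.hB, j_cmp hl hst hy.1, j_cmp hl hst hy.1]
    exact hy.2 _ _
  have hconj : ∀ g : Γ, ∀ Y ∈ rs (mm R ω j l) t,
      (s.ρ g * Y * s.ρ g⁻¹ : Module.End K (T t)) ∈ rs (mm R ω j l) t := by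
    rintro g _ ⟨_, ⟨y, hy, rfl⟩, rfl⟩
    refine ⟨_, ⟨_, NN_conj hω g hy, rfl⟩, ?_⟩
    apply LinearMap.ext
    intro v
    exact s.cmp_conj hl hst g hy v
  have hbr : ∀ Y ∈ rs (mm R ω j l) t, ∀ Z ∈ rs (mm R ω j l) t,
      Y * Z - Z * Y ∈ rs (mm R ω j l) t := by
    rintro _ ⟨D, hD, rfl⟩ _ ⟨D', hD', rfl⟩
    exact ⟨bk D D', mm_bk hl hst D hD D' hD', rfl⟩
  have hun : ∀ g : Γ, (R g - 1) * (R g - 1) = 0 → (s.ρ g - 1 : Module.End K (T t)) ∈
      rs (mm R ω j l) t := fun g hg => ⟨_, ⟨_, NN_unip hω hB0 hg, rfl⟩, s.cmp_unip hl g⟩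
  have hD : ∀ d, (d = finrank K (LinearMap.range (s.ρ s.γ - 1)) ∨
      ∃ γ' : Γ, (R γ' - 1) * (R γ' - 1) = 0 ∧ ∃ a : K, a ≠ 0 ∧
        d = finrank K (Module.End.maxGenEigenspace ((s.ρ s.γ - 1) * (s.ρ γ' - 1)) a)) →
      Pool.Agent.Y126.OT.Defect (rs (mm R ω j l) t) (s.ρ s.γ - 1 : Module.End K (T t)) d := by
    rintro d (h | ⟨γ', h3, a, ha, h⟩)
    · exact Or.inl h
    · exact Or.inr ⟨_, hun γ' h3, s.sq_of hl h3, a, ha, h⟩
  refine ⟨⟨s.B, s.al, s.nd, hne, hskew, fun x y => ?_⟩, rfl⟩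
  have h1 := toric_gen s.ρ (𝔥 := rs (mm R ω j l) t) χ s.irr hbr hconj s.B (alt_self s.al)
    (fun u hu => s.nd u fun v => by rw [s.al, hu, neg_zero]) s.inv
    (fun Y ⟨D, hD, hY⟩ => by rw [← hY]; exact hskew hD) (hun s.γ s.sq) (s.sq_of hl s.sq)
    (s.defect.imp (fun h p hp => by
      obtain ⟨d, h3, h4⟩ := h p hp
      exact ⟨d, hD d h3, h4⟩) (hD 2)) x y
  obtain ⟨D, hD, h2⟩ := h1
  refine ⟨D, hD, ?_⟩
  change D t = _ at h2
  rw [h2]
  apply LinearMap.ext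
  intro z
  rw [Pool.Agent.H204R3.SP.SS_apply, o_apply, add_comm]

include hl hst hω in
/-- Symplectic members without homomorphisms are independent. -/
theorem good_of_noHom [IsAlgClosed K] (s : SyMem R ω χ j t) (s' : SyMem R ω χ j t')
    (hno : ∀ (ψ : T t' →ₗ[K] T t) (ε : Γ → K),
      (∀ g x, ψ (s'.ρ g x) = ε g • s.ρ g (ψ x)) → ψ = 0) : Gd (mm R ω j l) t t' := by
  obtain ⟨o, -⟩ := s.exists_ms hl hst hω
  obtain ⟨o', -⟩ := s'.exists_ms hl hst hω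
  rcases o.good_or o' (mm_bk hl hst) with h1 | ⟨ψ, h0, hψ⟩
  · exact h1
  · exfalso
    have hinv : ∀ (ρ : Representation K Γ (T t)) g v, ρ g (ρ g⁻¹ v) = v := by
      intro ρ g v
      rw [← Module.End.mul_apply, ← map_mul, mul_inv_cancel, map_one]
      rfl
    have hinv1 : ∀ (ρ : Representation K Γ (T t)) g v, ρ g⁻¹ (ρ g v) = v := by
      intro ρ g v
      rw [← Module.End.mul_apply, ← map_mul, inv_mul_cancel, map_one]
      rfl
    have hinv' : ∀ (ρ : Representation K Γ (T t')) g v, ρ g⁻¹ (ρ g v) = v := by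
      intro ρ g v
      rw [← Module.End.mul_apply, ← map_mul, inv_mul_cancel, map_one]
      rfl
    have hε : ∀ g : Γ, ∃ ε : K, ∀ x, ψ (s'.ρ g x) = ε • s.ρ g (ψ x) := by
      intro g
      obtain ⟨ε, hε⟩ := (hψ (s.ρ g⁻¹ ∘ₗ ψ ∘ₗ s'.ρ g)).1 (by
        rintro _ ⟨y, hy, rfl⟩ x
        have h2 := (hψ ψ).2 ⟨1, by rw [one_smul]⟩ _
          ⟨_, NN_conj hω g hy, rfl⟩ (s'.ρ g x)
        rw [s'.cmp_conj hl hst g hy, s.cmp_conj hl hst g hy, hinv'] at h2
        simp only [LinearMap.comp_apply]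
        rw [h2, hinv1])
      refine ⟨ε, fun x => ?_⟩
      have h2 := LinearMap.congr_fun hε x
      simp only [LinearMap.comp_apply, LinearMap.smul_apply] at h2
      rw [← map_smul, ← h2, hinv]
    choose ε hε using hε
    exact h0 (hno ψ ε hε)

include hl hst hω in
/-- **The operators on one member, extended by zero.** -/
theorem exists_lift [IsAlgClosed K] [Finite X] (s : SyMem R ω χ j t)
    (hg : ∀ a, a ≠ t → Gd (mm R ω j l) t a) (u v : T t) :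
    ∃ y ∈ Lg R, (∀ a, a ≠ t → ∀ w, y (j a w) = 0) ∧
      ∀ w, y (j t w) = j t (oo s.B (-1) u v w) := by
  classical
  have := Fintype.ofFinite X
  obtain ⟨o, ho⟩ := s.exists_ms hl hst hω
  obtain ⟨_, ⟨y, hy, rfl⟩, h1, h2⟩ := o.good_finset (mm_bk hl hst) (Finset.univ.erase t)
    (fun a ha => hg a (Finset.ne_of_mem_erase ha)) u v
  refine ⟨y, hy.1, fun a ha w => ?_, fun w => ?_⟩
  · rw [← j_cmp hl hst hy.1, h1 a (Finset.mem_erase.2 ⟨ha, Finset.mem_univ a⟩),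
      LinearMap.zero_apply, map_zero]
  · rw [← j_cmp hl hst hy.1, h2, ho]

end fam

end

end Pool.Agent.X292.ZP
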