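import Pool.Agent.X292.TS.Gou
import Pool.Agent.X292.AV.Ful

/-!
# Criteria for independence of a symplectic member and another member
-/

set_option linter.unusedSectionVars false

namespace Pool.Agent.X292.ZP

open Module Finset Function Pool.Agent.TH125.Gal Pool.Agent.Y127.G Pool.Agent.Y127.C
  Pool.Agent.X292.SP Pool.Agent.X292.TG Pool.Agent.X292.TS Pool.Agent.X292.AV

variable {K : Type} [Field K] [CharZero K] {ι : Type} {T : ι → Type}
  [∀ i, AddCommGroup (T i)] [∀ i, Module K (T i)] [∀ i, FiniteDimensional K (T i)]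
  {𝔪 : Submodule K (∀ i, T i →ₗ[K] T i)} {t : ι} (o : Ms 𝔪 t)
  (hbk : ∀ D ∈ 𝔪, ∀ D' ∈ 𝔪, bk D D' ∈ 𝔪)

/-- the dimension criterion -/
theorem good_of_lt (o : Ms 𝔪 t) {a : ι} (W : Submodule K (Module.End K (T a)))
    (hW : ∀ D ∈ 𝔪, D a ∈ W) (hdim : finrank K W < finrank K (SkewS o.B)) : Gd 𝔪 t a := by
  by_contra hcon
  have h0 : ∀ D ∈ 𝔪, D a = 0 → D t = 0 := by
    intro D hD ha
    by_contra ht
    exact hcon ⟨D, hD, ha, ht⟩
  let f : 𝔪 →ₗ[K] Module.End K (T a) :=
    (LinearMap.proj a : (∀ i, T i →ₗ[K] T i) →ₗ[K] _) ∘ₗ 𝔪.subtype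
  let g : 𝔪 →ₗ[K] Module.End K (T t) :=
    (LinearMap.proj t : (∀ i, T i →ₗ[K] T i) →ₗ[K] _) ∘ₗ 𝔪.subtype
  obtain ⟨Φ, hΦ⟩ := exists_factor f g fun x hx => h0 x.1 x.2 hx
  have hΦ' : ∀ D ∈ 𝔪, Φ (D a) = D t := fun D hD => hΦ ⟨D, hD⟩
  have hle : SkewS o.B ≤ W.map Φ := by
    intro X hX
    obtain ⟨D, hD, hDt⟩ := skew_mem' (a := rs 𝔪 t) o.al o.nd (fun x y => o.all x y) hX
    exact ⟨D a, hW D hD, by rw [hΦ' D hD]; exact hDt⟩
  have h2 := Submodule.finrank_mono hle
  have h3 := Submodule.finrank_map_le Φ W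
  omega

theorem pos_dim (o : Ms 𝔪 t) : 0 < finrank K (T t) := by
  obtain ⟨x, hx⟩ := o.ne
  exact Module.finrank_pos_iff_exists_ne_zero.2 ⟨x, hx⟩

/-- **The criterion for symmetric forms.** -/
theorem good_of_sym (o : Ms 𝔪 t) {a : ι} {B : T a →ₗ[K] T a →ₗ[K] K}
    (hsk : ∀ D ∈ 𝔪, Skew B (D a)) (hsy : ∀ x y, B x y = B y x)
    (hnd : ∀ x, (∀ y, B x y = 0) → x = 0) (hdim : finrank K (T a) ≤ finrank K (T t)) :
    Gd 𝔪 t a := by
  refine good_of_lt o (SkewS B) hsk ?_
  have h1 := finrank_skew_le_sym hsy hnd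
  have h2 := le_finrank_skew' o.al o.nd
  have h3 := pos_dim o
  rcases Nat.eq_zero_or_pos (finrank K (T a)) with h4 | h4
  · rw [h4, Finset.range_zero, Finset.sum_empty] at h1
    have h5 := sum_lt (m := 1) (n := finrank K (T t) + 1) (by omega) (by norm_num)
    rw [Finset.sum_range_one] at h5
    omega
  · have h5 := sum_lt (Nat.lt_succ_of_le hdim) h4
    rw [Nat.succ_eq_add_one] at h5
    omega

/-- **The criterion for alternating forms.** -/
theorem good_of_alt (o : Ms 𝔪 t) {a : ι} {B : T a →ₗ[K] T a →ₗ[K] K}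
    (hsk : ∀ D ∈ 𝔪, Skew B (D a)) (hsy : ∀ x y, B x y = -B y x)
    (hnd : ∀ x, (∀ y, B x y = 0) → x = 0) (hdim : finrank K (T a) < finrank K (T t)) :
    Gd 𝔪 t a := by
  refine good_of_lt o (SkewS B) hsk ?_
  have h1 := finrank_skew_le_alt hsy hnd
  have h2 := le_finrank_skew' o.al o.nd
  have h5 := sum_lt (Nat.succ_lt_succ hdim) (Nat.succ_pos _)
  rw [Nat.succ_eq_add_one, Nat.succ_eq_add_one] at h5
  omega

/-- **The criterion without a form.** -/
theorem good_of_dim (o : Ms 𝔪 t) {a : ι}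
    (hdim : 2 * finrank K (T a) ^ 2 < finrank K (T t) * (finrank K (T t) + 1)) : Gd 𝔪 t a := by
  refine good_of_lt o ⊤ (fun _ _ => trivial) ?_
  have h1 : finrank K (⊤ : Submodule K (Module.End K (T a))) = finrank K (T a) * finrank K (T a) := by
    rw [finrank_top]
    exact finrank_linearMap K K (T a) (T a)
  have h2 := le_finrank_skew' o.al o.nd
  have h3 := Finset.sum_range_id_mul_two (finrank K (T t) + 1)
  rw [Nat.add_sub_cancel] at h3
  rw [h1]
  nlinarith

include hbk in
/-- the general form of the criterion -/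
theorem good_of_factor (o : Ms 𝔪 t) {J : ∀ i, T i →ₗ[K] T i} (hJ : J ∈ 𝔪)
    (hJt : (J t : Module.End K (T t)) * J t = 0) {a : ι}
    (hJa : (J a : Module.End K (T a)) * J a = 0) {E : Type} [AddCommGroup E] [Module K E]
    [FiniteDimensional K E] (f : 𝔪 →ₗ[K] E)
    (hf : ∀ D : 𝔪, f D = 0 → (J a : Module.End K (T a)) * D.1 a * J a = 0)
    (hdim : finrank K E < ∑ i ∈ range (finrank K (LinearMap.range (J t)) + 1), i) :
    Gd 𝔪 t a := by
  by_contra hcon
  have h0 : ∀ D ∈ 𝔪, D a = 0 → D t = 0 := by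
    intro D hD ha
    by_contra ht
    exact hcon ⟨D, hD, ha, ht⟩
  have hbb : ∀ {i : ι} (_ : (J i : Module.End K (T i)) * J i = 0) (X : Module.End K (T i)),
      br (J i) (br (J i) X) = (-2 : K) • (J i * X * J i) := by
    intro i hi X
    rw [br, br, mul_sub, sub_mul, ← mul_assoc, ← mul_assoc, hi, zero_mul, mul_assoc X, hi, mul_zero]
    module
  let g : 𝔪 →ₗ[K] Module.End K (T t) :=
    adL (J t) ∘ₗ adL (J t) ∘ₗ (LinearMap.proj t : (∀ i, T i →ₗ[K] T i) →ₗ[K] _) ∘ₗ
      𝔪.subtype
  have hg : ∀ D : 𝔪, g D = (-2 : K) • (J t * D.1 t * J t) := fun D => hbb hJt _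
  obtain ⟨Φ, hΦ⟩ := exists_factor f g fun D hD => by
    have h1 : bk J (bk J D.1) ∈ 𝔪 := hbk _ hJ _ (hbk _ hJ _ D.2)
    have h2 := h0 _ h1 (by
      rw [bk_eq, bk_eq, hbb hJa, hf D hD, smul_zero])
    exact h2
  have hle : LinearMap.range g ≤ (LinearMap.range f).map Φ := by
    rintro _ ⟨D, rfl⟩
    exact ⟨f D, ⟨D, rfl⟩, hΦ D⟩
  have k1 := Submodule.finrank_mono hle
  have k2 := Submodule.finrank_map_le Φ (LinearMap.range f)
  have k3 := Submodule.finrank_le (LinearMap.range f)
  have k4 := le_finrank_sub o.al o.nd (LinearMap.range (J t)) (M := LinearMap.range g) (by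
    rintro _ ⟨x, rfl⟩ _ ⟨y, rfl⟩
    obtain ⟨D, hD, hDt⟩ := o.all x y
    refine ⟨(2⁻¹ : K) • ⟨D, hD⟩, ?_⟩
    have hDt' : (⟨D, hD⟩ : 𝔪).1 t = oo o.B (-1) x y := hDt
    rw [map_smul, hg, smul_smul, hDt']
    have hc := o.skew hJ
    apply LinearMap.ext
    intro z
    have h5 : ∀ u v, o.B u (J t v) = -o.B (J t u) v := by
      intro u v
      have h6 := hc u v
      exact eq_neg_of_add_eq_zero_right h6
    rw [LinearMap.smul_apply, Module.End.mul_apply, Module.End.mul_apply, o_apply, o_apply,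
      map_add, map_smul, map_smul, h5, h5]
    module)
  omega

include hbk in
/-- **The criterion by the rank.** -/
theorem good_of_rank (o : Ms 𝔪 t) {J : ∀ i, T i →ₗ[K] T i} (hJ : J ∈ 𝔪)
    (hJt : (J t : Module.End K (T t)) * J t = 0) {a : ι}
    (hJa : (J a : Module.End K (T a)) * J a = 0)
    (hdim : 2 * finrank K (LinearMap.range (J a)) ^ 2 <
      finrank K (LinearMap.range (J t)) * (finrank K (LinearMap.range (J t)) + 1)) :
    Gd 𝔪 t a := by
  let f : 𝔪 →ₗ[K] (LinearMap.range (J a) →ₗ[K] LinearMap.range (J a)) :=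
    { toFun := fun D => (J a).rangeRestrict ∘ₗ D.1 a ∘ₗ (LinearMap.range (J a)).subtype
      map_add' := fun x y => by
        change (J a).rangeRestrict ∘ₗ (x.1 a + y.1 a) ∘ₗ _ = _
        rw [LinearMap.add_comp, LinearMap.comp_add]
      map_smul' := fun c x => by
        change (J a).rangeRestrict ∘ₗ (c • x.1 a) ∘ₗ _ = _
        rw [LinearMap.smul_comp, LinearMap.comp_smul]
        rfl }
  refine good_of_factor hbk o hJ hJt hJa f ?_ ?_
  · intro D hD
    apply LinearMap.ext
    intro z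
    have h1 := LinearMap.congr_fun hD ⟨J a z, z, rfl⟩
    exact congrArg Subtype.val h1
  · rw [finrank_linearMap]
    have h1 := Finset.sum_range_id_mul_two (finrank K (LinearMap.range (J t)) + 1)
    rw [Nat.add_sub_cancel] at h1
    nlinarith

include hbk in
/-- **The criterion by the rank, for forms.** -/
theorem good_of_rank_form (o : Ms 𝔪 t) {J : ∀ i, T i →ₗ[K] T i} (hJ : J ∈ 𝔪)
    (hJt : (J t : Module.End K (T t)) * J t = 0) {a : ι}
    (hJa : (J a : Module.End K (T a)) * J a = 0) {B : T a →ₗ[K] T a →ₗ[K] K}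
    (hsk : ∀ D ∈ 𝔪, Skew B (D a)) (hnd : ∀ x, (∀ y, B x y = 0) → x = 0)
    (h : ((∀ x y, B x y = B y x) ∧ finrank K (LinearMap.range (J a)) ≤
        finrank K (LinearMap.range (J t)) ∧ 0 < finrank K (LinearMap.range (J t))) ∨
      ((∀ x y, B x y = -B y x) ∧ finrank K (LinearMap.range (J a)) <
        finrank K (LinearMap.range (J t)))) : Gd 𝔪 t a := by
  classical
  have hJs : ∀ u v, B (J a u) v = -B u (J a v) := by
    intro u v
    have h6 := hsk J hJ u v
    exact eq_neg_of_add_eq_zero_left h6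
  let b := Module.finBasis K (LinearMap.range (J a))
  -- the vanishing of `J D J`
  have hvan : ∀ D : 𝔪, (∀ i j, B (D.1 a (b i)) (b j : T a) = 0) →
      (J a : Module.End K (T a)) * D.1 a * J a = 0 := by
    intro D hD
    have h1 : ∀ u ∈ LinearMap.range (J a), ∀ v ∈ LinearMap.range (J a), B (D.1 a u) v = 0 := by
      intro u hu v hv
      have h2 : ((B ∘ₗ (D.1 a)) ∘ₗ (LinearMap.range (J a)).subtype).compl₂
          (LinearMap.range (J a)).subtype = 0 := by
        refine b.ext fun i => b.ext fun j => ?_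
        exact hD i j
      exact LinearMap.congr_fun (LinearMap.congr_fun h2 ⟨u, hu⟩) ⟨v, hv⟩
    apply LinearMap.ext
    intro z
    rw [Module.End.mul_apply, Module.End.mul_apply, LinearMap.zero_apply]
    refine hnd _ fun y => ?_
    rw [hJs, h1 _ ⟨z, rfl⟩ _ ⟨y, rfl⟩, neg_zero]
  rcases h with ⟨hsy, hr, hpos⟩ | ⟨hsy, hr⟩
  · let φ : 𝔪 →ₗ[K] ({x : Fin (finrank K (LinearMap.range (J a))) ×
        Fin (finrank K (LinearMap.range (J a))) // x.1 < x.2} → K) :=
      { toFun := fun D x => B (D.1 a (b x.1.1)) (b x.1.2 : T a)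
        map_add' := fun X Y => by
          funext x
          change B ((X.1 a + Y.1 a) (b x.1.1)) _ = _
          rw [LinearMap.add_apply, map_add, LinearMap.add_apply]
          rfl
        map_smul' := fun c X => by
          funext x
          change B ((c • X.1 a) (b x.1.1)) _ = _
          rw [LinearMap.smul_apply, map_smul, LinearMap.smul_apply]
          rfl }
    refine good_of_factor hbk o hJ hJt hJa φ (fun D hD => hvan D fun i j => ?_) ?_
    · have h1 : ∀ i j, i < j → B (D.1 a (b i)) (b j : T a) = 0 :=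
        fun i j hij => congrFun hD ⟨(i, j), hij⟩
      have h4 := hsk D.1 D.2
      rcases lt_trichotomy i j with h | h | h
      · exact h1 i j h
      · rw [h]
        have h3 := h4 (b j : T a) (b j : T a)
        rw [hsy (b j : T a) (D.1 a (b j))] at h3
        have h5 : (2 : K) * B (D.1 a (b j)) (b j : T a) = 0 := by linear_combination h3
        exact (mul_eq_zero.1 h5).resolve_left two_ne_zero
      · have h3 := h4 (b i : T a) (b j : T a)
        rw [hsy (b i : T a), h1 j i h, add_zero] at h3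
        exact h3
    · rw [Module.finrank_fintype_fun_eq_card, card_lt]
      rcases Nat.eq_zero_or_pos (finrank K (LinearMap.range (J a))) with h5 | h5
      · rw [h5, Finset.range_zero, Finset.sum_empty]
        have h6 := sum_lt (m := 1) (n := finrank K (LinearMap.range (J t)) + 1) (by omega)
          (by norm_num)
        omega
      · exact sum_lt (Nat.lt_succ_of_le hr) h5
  · let φ : 𝔪 →ₗ[K] ({x : Fin (finrank K (LinearMap.range (J a))) ×
        Fin (finrank K (LinearMap.range (J a))) // x.1 ≤ x.2} → K) :=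
      { toFun := fun D x => B (D.1 a (b x.1.1)) (b x.1.2 : T a)
        map_add' := fun X Y => by
          funext x
          change B ((X.1 a + Y.1 a) (b x.1.1)) _ = _
          rw [LinearMap.add_apply, map_add, LinearMap.add_apply]
          rfl
        map_smul' := fun c X => by
          funext x
          change B ((c • X.1 a) (b x.1.1)) _ = _
          rw [LinearMap.smul_apply, map_smul, LinearMap.smul_apply]
          rfl }
    refine good_of_factor hbk o hJ hJt hJa φ (fun D hD => hvan D fun i j => ?_) ?_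
    · have h1 : ∀ i j, i ≤ j → B (D.1 a (b i)) (b j : T a) = 0 :=
        fun i j hij => congrFun hD ⟨(i, j), hij⟩
      have h4 := hsk D.1 D.2
      rcases le_or_gt i j with h | h
      · exact h1 i j h
      · have h3 := h4 (b i : T a) (b j : T a)
        rw [hsy (b i : T a), h1 j i h.le, neg_zero, add_zero] at h3
        exact h3
    · rw [Module.finrank_fintype_fun_eq_card, card_le]
      exact sum_lt (Nat.succ_lt_succ hr) (Nat.succ_pos _)

end Pool.Agent.X292.ZP
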