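import Mathlib

/-!
# Homomorphisms up to a function, for strongly irreducible symplectic representations
-/

set_option linter.unusedSectionVars false

namespace Pool.Agent.X292.ZP

open Module

variable {K : Type} [Field K] [IsAlgClosed K] {Γ : Type} [Group Γ] {V V' : Type}
  [AddCommGroup V] [Module K V] [FiniteDimensional K V] [AddCommGroup V'] [Module K V']
  [FiniteDimensional K V']

theorem finite_sq {S : Set K} (hS : S.Finite) {c : K} (hc : c ≠ 0) :
    {z : K | z ^ 2 * c ∈ S}.Finite := by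
  have h1 : {z : K | z ^ 2 * c ∈ S} ⊆ ⋃ s ∈ S, {z : K | z ^ 2 * c = s} := by
    intro z hz
    simp only [Set.mem_iUnion]
    exact ⟨_, hz, rfl⟩
  refine Set.Finite.subset (hS.biUnion fun s _ => ?_) h1
  by_cases h : ∃ z0 : K, z0 ^ 2 * c = s
  · obtain ⟨z0, hz0⟩ := h
    refine Set.Finite.subset (Set.toFinite {z0, -z0}) ?_
    intro z hz
    have h2 : z ^ 2 * c = z0 ^ 2 * c := by rw [hz0]; exact hz
    have h3 : z ^ 2 = z0 ^ 2 := mul_right_cancel₀ hc h2
    rcases sq_eq_sq_iff_eq_or_eq_neg.1 h3 with h4 | h4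
    · exact Or.inl h4
    · exact Or.inr h4
  · convert Set.finite_empty
    ext z
    simp only [Set.mem_setOf_eq, Set.mem_empty_iff_false, iff_false]
    exact fun hz => h ⟨z, hz⟩

theorem noHom_up (χ : Γ →* K) (ρ : Representation K Γ V) (ρ' : Representation K Γ V')
    {B : V →ₗ[K] V →ₗ[K] K} {B' : V' →ₗ[K] V' →ₗ[K] K}
    (hnd : ∀ x, (∀ y, B x y = 0) → x = 0) (hnd' : ∀ x, (∀ y, B' x y = 0) → x = 0)
    (hinv : ∀ g x y, B (ρ g x) (ρ g y) = χ g * B x y)
    (hinv' : ∀ g x y, B' (ρ' g x) (ρ' g y) = χ g * B' x y)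
    (irr : ∀ W : Submodule K V, (∀ g, ∀ u ∈ W, ρ g u ∈ W) → W = ⊥ ∨ W = ⊤)
    (irr' : ∀ W : Submodule K V', (∀ g, ∀ u ∈ W, ρ' g u ∈ W) → W = ⊥ ∨ W = ⊤)
    (hno : ∀ (f : V' →ₗ[K] V) (Δ : Subgroup Γ), Δ.FiniteIndex →
      (∀ g ∈ Δ, ∀ x, f (ρ' g x) = ρ g (f x)) → f = 0)
    (ψ : V' →ₗ[K] V) (ε : Γ → K) (h : ∀ g x, ψ (ρ' g x) = ε g • ρ g (ψ x)) : ψ = 0 := by
  by_contra h0
  have hi : ∀ g v, ρ g (ρ g⁻¹ v) = v := fun g v => by
    rw [← Module.End.mul_apply, ← map_mul, mul_inv_cancel, map_one]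
    rfl
  have hi2 : ∀ g v, ρ g⁻¹ (ρ g v) = v := fun g v => by
    rw [← Module.End.mul_apply, ← map_mul, inv_mul_cancel, map_one]
    rfl
  have hi' : ∀ g v, ρ' g (ρ' g⁻¹ v) = v := fun g v => by
    rw [← Module.End.mul_apply, ← map_mul, mul_inv_cancel, map_one]
    rfl
  have hχ : ∀ g, χ g ≠ 0 := by
    intro g hg
    have h1 : χ (g * g⁻¹) = 1 := by rw [mul_inv_cancel, map_one]
    rw [map_mul, hg, zero_mul] at h1
    exact zero_ne_one h1
  have hε : ∀ g, ε g ≠ 0 := by
    intro g hg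
    apply h0
    apply LinearMap.ext
    intro x
    have h1 := h g (ρ' g⁻¹ x)
    rw [hi', hg, zero_smul] at h1
    rw [h1, LinearMap.zero_apply]
  have hinj : LinearMap.ker ψ = ⊥ := by
    rcases irr' (LinearMap.ker ψ) (fun g u hu => by
      rw [LinearMap.mem_ker] at hu ⊢
      rw [h, hu, map_zero, smul_zero]) with h1 | h1
    · exact h1
    · exact absurd (LinearMap.ker_eq_top.1 h1) h0
  have hsur : LinearMap.range ψ = ⊤ := by
    rcases irr (LinearMap.range ψ) (by
      rintro g _ ⟨x, rfl⟩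
      refine ⟨(ε g)⁻¹ • ρ' g x, ?_⟩
      rw [map_smul, h, smul_smul, inv_mul_cancel₀ (hε g), one_smul]) with h1 | h1
    · exact absurd (LinearMap.range_eq_bot.1 h1) h0
    · exact h1
  obtain ⟨x0, hx0⟩ : ∃ x, ψ x ≠ 0 := by
    by_contra hcon
    push Not at hcon
    exact h0 (LinearMap.ext hcon)
  -- multiplicativity
  have hmul : ∀ g g', ε (g * g') = ε g * ε g' := by
    intro g g'
    have h1 := h (g * g') x0
    have h2 : ψ (ρ' (g * g') x0) = (ε g * ε g') • ρ (g * g') (ψ x0) := by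
      rw [map_mul, Module.End.mul_apply, h, h, map_smul, smul_smul, map_mul,
        Module.End.mul_apply]
    rw [h1] at h2
    have h3 : ρ (g * g') (ψ x0) ≠ 0 := by
      intro h4
      apply hx0
      rw [← hi2 (g * g') (ψ x0), h4, map_zero]
    exact smul_left_injective K h3 h2
  have hone : ε 1 = 1 := by
    have h1 := hmul 1 1
    rw [mul_one] at h1
    exact (mul_eq_left₀ (hε 1)).1 h1.symm
  -- the operator
  let B₁ : V' →ₗ[K] V' →ₗ[K] K := (B.comp ψ).compl₂ ψ
  have hB₁ : ∀ x y, B₁ x y = B (ψ x) (ψ y) := fun _ _ => rfl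
  have hbij : Function.Injective B' := by
    rw [← LinearMap.ker_eq_bot, LinearMap.ker_eq_bot']
    intro x hx
    exact hnd' x fun y => by rw [hx, LinearMap.zero_apply]
  have hsurj : Function.Surjective (B' : V' →ₗ[K] Module.Dual K V') :=
    (LinearMap.injective_iff_surjective_of_finrank_eq_finrank
      (Subspace.dual_finrank_eq (K := K) (V := V')).symm).1 hbij
  let E : V' ≃ₗ[K] Module.Dual K V' := LinearEquiv.ofBijective B' ⟨hbij, hsurj⟩
  let T : Module.End K V' := E.symm.toLinearMap ∘ₗ B₁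
  have hT : ∀ x y, B' (T x) y = B₁ x y := by
    intro x y
    have h1 : E (T x) = B₁ x := E.apply_symm_apply _
    exact LinearMap.congr_fun h1 y
  have hTg : ∀ g x, T (ρ' g x) = (ε g ^ 2) • ρ' g (T x) := by
    intro g x
    rw [← sub_eq_zero]
    apply hnd'
    intro y
    obtain ⟨z, rfl⟩ : ∃ z, ρ' g z = y := ⟨_, hi' g y⟩
    rw [map_sub, LinearMap.sub_apply, hT, hB₁, h, h, map_smul, map_smul, LinearMap.smul_apply,
      map_smul, LinearMap.smul_apply, hinv, hinv', hT, hB₁, smul_eq_mul, smul_eq_mul, smul_eq_mul]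
    ring
  have hTinj : ∀ x, T x = 0 → x = 0 := by
    intro x hx
    have h1 : ∀ y, B (ψ x) (ψ y) = 0 := fun y => by
      rw [← hB₁, ← hT, hx, map_zero, LinearMap.zero_apply]
    have h2 : ψ x = 0 := by
      apply hnd
      intro y
      obtain ⟨z, rfl⟩ : ∃ z, ψ z = y := by
        have : y ∈ LinearMap.range ψ := by rw [hsur]; trivial
        exact this
      exact h1 z
    rw [← LinearMap.mem_ker, hinj] at h2
    exact h2
  have hV : Nontrivial V' := ⟨⟨x0, 0, fun h1 => hx0 (by rw [h1, map_zero])⟩⟩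
  obtain ⟨c, hc⟩ := Module.End.exists_eigenvalue T
  obtain ⟨v, hv⟩ := hc.exists_hasEigenvector
  have hc0 : c ≠ 0 := by
    rintro rfl
    have h1 := hv.apply_eq_smul
    rw [zero_smul] at h1
    exact hv.2 (hTinj v h1)
  have hfin : (Set.range ε).Finite := by
    refine Set.Finite.subset (finite_sq (Module.End.finite_spectrum T) hc0) ?_
    rintro _ ⟨g, rfl⟩
    rw [Set.mem_setOf_eq, ← Module.End.hasEigenvalue_iff_mem_spectrum]
    refine Module.End.hasEigenvalue_of_hasEigenvector (x := ρ' g v)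
      (Module.End.hasEigenvector_iff.2 ⟨Module.End.mem_eigenspace_iff.2 ?_, ?_⟩)
    · rw [hTg, hv.apply_eq_smul, map_smul, smul_smul]
    · intro h1
      apply hv.2
      have h2 : ρ' g⁻¹ (ρ' g v) = v := by
        rw [← Module.End.mul_apply, ← map_mul, inv_mul_cancel, map_one]
        rfl
      rw [← h2, h1, map_zero]
  -- the kernel
  let e : Γ →* Kˣ :=
    { toFun := fun g => Units.mk0 (ε g) (hε g)
      map_one' := Units.ext hone
      map_mul' := fun g g' => Units.ext (hmul g g') }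
  have hfr : Finite e.range := by
    have h1 : (Set.range e).Finite := by
      refine Set.Finite.of_finite_image (f := fun u : Kˣ => (u : K)) (hfin.subset ?_)
        (Units.val_injective.injOn)
      rintro _ ⟨_, ⟨g, rfl⟩, rfl⟩
      exact ⟨g, rfl⟩
    exact h1.to_subtype
  have hker : e.ker.FiniteIndex := Subgroup.finiteIndex_ker e
  refine h0 (hno ψ e.ker hker fun g hg x => ?_)
  have h1 : ε g = 1 := congrArg Units.val (MonoidHom.mem_ker.1 hg)
  rw [h, h1, one_smul]

end Pool.Agent.X292.ZP
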