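import Mathlib

/-!
# Lagrangian decompositions
-/

set_option linter.unusedSectionVars false

namespace Pool.Agent.X292.ZP

open Module

variable {K : Type} [Field K]

theorem exists_lag (n : ℕ) : ∀ (V : Type) [AddCommGroup V] [Module K V] [FiniteDimensional K V]
    (ω : V →ₗ[K] V →ₗ[K] K), (∀ v, ω v v = 0) → (∀ u, (∀ v, ω u v = 0) → u = 0) →
    finrank K V ≤ n → ∃ p : Module.End K V, p * p = p ∧ ∀ u v, ω (p u) v + ω u (p v) = ω u v := by
  induction n with
  | zero =>
    intro V _ _ _ ω _ _ hn
    have h0 : ∀ v : V, v = 0 := fun v => finrank_zero_iff_forall_zero.1 (Nat.le_zero.1 hn) v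
    refine ⟨0, by simp, fun u v => ?_⟩
    rw [h0 u]
    simp
  | succ n ih =>
    intro V _ _ _ ω ha hnd hn
    have hsw : ∀ x y, ω x y = -ω y x := by
      intro x y
      have h := ha (x + y)
      simp only [map_add, LinearMap.add_apply, ha, zero_add, add_zero] at h
      linear_combination h
    by_cases hV : ∀ v : V, v = 0
    · refine ⟨0, by simp, fun u v => ?_⟩
      rw [hV u]
      simp
    push Not at hV
    obtain ⟨e, he⟩ := hV
    obtain ⟨f, hf⟩ : ∃ f, ω e f = 1 := by
      by_contra hcon
      apply he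
      apply hnd
      intro v
      by_contra hv
      apply hcon
      exact ⟨(ω e v)⁻¹ • v, by rw [map_smul, smul_eq_mul, inv_mul_cancel₀ hv]⟩
    have hfe : ω f e = -1 := by rw [hsw, hf]
    let W : Submodule K V := LinearMap.ker (ω e) ⊓ LinearMap.ker (ω f)
    have hW : ∀ w, w ∈ W ↔ ω e w = 0 ∧ ω f w = 0 := fun w => Iff.rfl
    let q : V →ₗ[K] V := LinearMap.id - ((ω.flip f).smulRight e) + ((ω.flip e).smulRight f)
    have hq : ∀ v, q v = v - ω v f • e + ω v e • f := fun v => rfl
    have hqW : ∀ v, q v ∈ W := by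
      intro v
      rw [hW, hq]
      constructor
      · simp only [map_add, map_sub, map_smul, smul_eq_mul, ha, hf]
        rw [hsw e v]
        ring
      · simp only [map_add, map_sub, map_smul, smul_eq_mul, ha, hfe]
        rw [hsw f v]
        ring
    have hqi : ∀ w ∈ W, q w = w := by
      intro w hw
      rw [hW] at hw
      rw [hq, hsw w f, hsw w e, hw.1, hw.2]
      simp
    have hdec : ∀ v, v = ω v f • e - ω v e • f + q v := by
      intro v
      rw [hq]
      module
    let q' : V →ₗ[K] W := q.codRestrict W hqW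
    have hWe : e ∉ W := by
      intro h
      have h1 := ((hW e).1 h).2
      rw [hfe] at h1
      exact one_ne_zero (neg_eq_zero.1 h1)
    have hlt : finrank K W < finrank K V := Submodule.finrank_lt (fun h => hWe (by rw [h]; trivial))
    let ω' : W →ₗ[K] W →ₗ[K] K := (ω.comp W.subtype).compl₂ W.subtype
    have hω' : ∀ u v : W, ω' u v = ω u v := fun _ _ => rfl
    obtain ⟨p, hp1, hp2⟩ := ih W ω' (fun v => ha v) (fun u hu => by
      apply Subtype.ext
      apply hnd
      intro v
      rw [hdec v]
      have h1 := hu (q' v)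
      have h2 : ω' u (q' v) = ω u (q v) := rfl
      rw [h2] at h1
      have h3 := (hW u).1 u.2
      rw [map_add, h1, map_sub, map_smul, map_smul, hsw (u : V) e, hsw (u : V) f, h3.1, h3.2]
      simp) (by omega)
    let P : V →ₗ[K] V := (ω.flip f).smulRight e + W.subtype ∘ₗ p ∘ₗ q'
    have hP : ∀ v, P v = ω v f • e + (p (q' v) : V) := fun v => rfl
    have hpW : ∀ w : W, ω e w = 0 ∧ ω f w = 0 := fun w => (hW w).1 w.2
    have hpW' : ∀ w : W, ω w e = 0 ∧ ω w f = 0 := fun w => by
      rw [hsw (w : V) e, hsw (w : V) f, (hpW w).1, (hpW w).2]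
      simp
    have hq'e : q' e = 0 := by
      apply Subtype.ext
      change q e = 0
      rw [hq, hf, ha]
      simp
    have hq'w : ∀ w : W, q' w = w := fun w => Subtype.ext (hqi w w.2)
    refine ⟨P, LinearMap.ext fun v => ?_, fun u v => ?_⟩
    · rw [Module.End.mul_apply, hP (P v)]
      have h1 : ω (P v) f = ω v f := by
        rw [hP, map_add, LinearMap.add_apply, map_smul, LinearMap.smul_apply, hf,
          (hpW' _).2]
        simp
      have h2 : q' (P v) = p (q' v) := by
        rw [hP, map_add, map_smul, hq'e, smul_zero, zero_add, hq'w]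
      rw [h1, h2, hP]
      congr 2
      exact LinearMap.congr_fun hp1 (q' v)
    · have h1 := hp2 (q' u) (q' v)
      rw [hω', hω', hω'] at h1
      have k : ∀ v, (q' v : V) = q v := fun _ => rfl
      have hWv : ∀ (w : W) x, ω (w : V) x = ω (w : V) (q x) := by
        intro w x
        have h5 := congrArg (ω (w : V)) (hdec x)
        rw [map_add, map_sub, map_smul, map_smul, (hpW' w).1, (hpW' w).2] at h5
        rw [h5]
        simp
      have hWv' : ∀ (w : W) x, ω x (w : V) = ω (q x) (w : V) := by
        intro w x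
        rw [hsw x, hsw (q x), hWv]
      have e1 : ω (P u) v = -(ω u f * ω v e) + ω (p (q' u) : V) (q' v : V) := by
        rw [hP, map_add, LinearMap.add_apply, map_smul, LinearMap.smul_apply, smul_eq_mul,
          hsw e v, hWv]
        rw [k]
        ring
      have e2 : ω u (P v) = ω u e * ω v f + ω (q' u : V) (p (q' v) : V) := by
        rw [hP, map_add, map_smul, smul_eq_mul, hWv', k]
        ring
      have e3 : ω u v = ω u e * ω v f - ω u f * ω v e + ω (q' u : V) (q' v : V) := by
        have h5 : ω (q u) e = 0 := (hpW' (q' u)).1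
        have h6 : ω (q u) f = 0 := (hpW' (q' u)).2
        have h7 : ω e (q v) = 0 := (hpW (q' v)).1
        have h8 : ω f (q v) = 0 := (hpW (q' v)).2
        conv_lhs => rw [hdec u, hdec v]
        simp only [map_add, map_sub, map_smul, LinearMap.add_apply, LinearMap.sub_apply,
          LinearMap.smul_apply, smul_eq_mul, ha, hf, hfe, h5, h6, h7, h8, k]
        ring
      rw [e1, e2, e3]
      linear_combination h1

variable {ι : Type} [Fintype ι] [DecidableEq ι]

/-- An idempotent matrix which gives a Lagrangian decomposition. -/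
theorem exists_lag_matrix {ψ : Matrix ι ι K} (ht : ψ.transpose = -ψ) (h0 : ∀ i, ψ i i = 0)
    (hψ : IsUnit ψ.det) : ∃ p : Matrix ι ι K, p * p = p ∧ p.transpose * ψ + ψ * p = ψ := by
  classical
  let ω : (ι → K) →ₗ[K] (ι → K) →ₗ[K] K := Matrix.toLinearMap₂' K ψ
  have hω : ∀ u v, ω u v = u ⬝ᵥ ψ.mulVec v := fun u v => by
    rw [Matrix.toLinearMap₂'_apply']
  have hsw : ∀ u v, ω u v = -ω v u := by
    intro u v
    rw [hω, hω, Matrix.dotProduct_mulVec, ← Matrix.mulVec_transpose, ht, Matrix.neg_mulVec,
      neg_dotProduct, dotProduct_comm]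
  have ha : ∀ v, ω v v = 0 := by
    intro v
    rw [hω, dotProduct]
    simp only [Matrix.mulVec, dotProduct, Finset.mul_sum]
    have h1 : ∀ i j, ψ j i = -ψ i j := fun i j => congrFun (congrFun ht i) j
    have h2 : ∀ s : Finset ι, ∑ x ∈ s, ∑ y ∈ s, v x * (ψ x y * v y) = 0 := by
      intro s
      induction s using Finset.induction_on with
      | empty => simp
      | insert a s ha ih =>
        rw [Finset.sum_insert ha, Finset.sum_insert ha, h0]
        have h3 : ∀ x, ∑ y ∈ insert a s, v x * (ψ x y * v y) = v x * (ψ x a * v a) +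
            ∑ y ∈ s, v x * (ψ x y * v y) := fun x => Finset.sum_insert ha
        simp only [h3, Finset.sum_add_distrib, ih]
        rw [add_zero]
        have h4 : ∑ x ∈ s, v x * (ψ x a * v a) = -∑ x ∈ s, v a * (ψ a x * v x) := by
          rw [← Finset.sum_neg_distrib]
          refine Finset.sum_congr rfl fun x _ => ?_
          rw [h1 a x]
          ring
        rw [h4]
        ring
    exact h2 Finset.univ
  have hnd : ∀ u, (∀ v, ω u v = 0) → u = 0 := by
    intro u hu
    have h1 : ψ.mulVec u = 0 := by
      funext i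
      have h2 := hu (Pi.single i 1)
      rw [hsw, hω, single_dotProduct, one_mul, neg_eq_zero] at h2
      exact h2
    have h2 := congrArg (fun w => ψ⁻¹.mulVec w) h1
    simp only [Matrix.mulVec_mulVec, Matrix.nonsing_inv_mul ψ hψ, Matrix.one_mulVec,
      Matrix.mulVec_zero] at h2
    exact h2
  obtain ⟨p, hp1, hp2⟩ := exists_lag _ (ι → K) ω ha hnd le_rfl
  refine ⟨LinearMap.toMatrix' p, ?_, ?_⟩
  · rw [← LinearMap.toMatrix'_mul, hp1]
  · refine (Matrix.toLinearMap₂' K :
      Matrix ι ι K ≃ₗ[K] ((ι → K) →ₗ[K] (ι → K) →ₗ[K] K)).injective ?_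
    apply LinearMap.ext
    intro u
    apply LinearMap.ext
    intro v
    have h1 := hp2 u v
    rw [Matrix.toLinearMap₂'_apply', Matrix.toLinearMap₂'_apply', Matrix.add_mulVec, dotProduct_add]
    have h2 : ∀ w, p w = (LinearMap.toMatrix' p).mulVec w := fun w =>
      (LinearMap.toMatrix'_mulVec p w).symm
    rw [hω, hω, hω, h2, h2] at h1
    rw [← h1, ← Matrix.mulVec_mulVec, ← Matrix.mulVec_mulVec]
    congr 1
    rw [Matrix.dotProduct_mulVec u, Matrix.vecMul_transpose]

/-- the similitudes given by the decomposition -/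
def dm {L : Type} [CommRing L] (p : Matrix ι ι L) (t : L) : Matrix ι ι L := 1 - p + t • p

theorem dm_form {L : Type} [CommRing L] {p ψ : Matrix ι ι L} (hp : p * p = p)
    (hψ : p.transpose * ψ + ψ * p = ψ) (t : L) : (dm p t).transpose * ψ * dm p t = t • ψ := by
  have h1 : p.transpose * ψ = ψ - ψ * p := eq_sub_of_add_eq hψ
  have h2 : (dm p t).transpose * ψ = ψ * p + t • (ψ - ψ * p) := by
    unfold dm
    rw [Matrix.transpose_add, Matrix.transpose_sub, Matrix.transpose_one, Matrix.transpose_smul,
      add_mul, sub_mul, one_mul, smul_mul_assoc, h1]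
    abel
  rw [h2]
  unfold dm
  have h3 : ψ * p * p = ψ * p := by rw [mul_assoc, hp]
  simp only [add_mul, mul_add, mul_sub, sub_mul, mul_one, smul_mul_assoc, mul_smul_comm, smul_sub,
    smul_add, smul_smul, h3]
  module

end Pool.Agent.X292.ZP
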