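import Pool.Agent.X292.ZP.Op

/-!
# Lifting symplectic operators of one factor
-/

set_option linter.unusedSectionVars false

namespace Pool.Agent.X292.ZP

open Module Pool.Agent.TH125.Gal Pool.Agent.Y127.G Pool.Agent.Y127.C
  Pool.Agent.X292.SP Pool.Agent.X292.TG Pool.Agent.X292.TS Pool.Agent.X292.AV
open Pool.Agent.W528.ZC (Lg InZ Lg_br Lg_conj Lg_unip Lg_form hBR hCJ hUN hTR repM repM_apply bf
  bf_apply bf_nondeg bf_mul bf_smul Lg_comm InZ_one InZ_mul InZ_unip toM)

noncomputable section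

variable {I : Type} [Fintype I] [DecidableEq I] {κ : Type} [Fintype κ] [DecidableEq κ]
  {ι : I → Type} [∀ i, Fintype (ι i)] [∀ i, DecidableEq (ι i)] {Γ : Type} [Group Γ]
  {n : I → ℕ} {k : Type} [Field k] {K : Type} [Field K] [Algebra k K]
  {ρB : Γ →* Matrix κ κ k} {ρ : ∀ i, Γ →* Matrix (ι i) (ι i) k}
  {χ : Γ →* k} {ψB : Matrix κ κ k} {ψ : ∀ i, Matrix (ι i) (ι i) k}

section TT

variable {m : ℕ} (U : Fin m → Submodule K (κ → K))

/-- the members -/
def TT (ι : I → Type) (U : Fin m → Submodule K (κ → K)) : I ⊕ Fin m → Type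
  | Sum.inl i => ι i → K
  | Sum.inr a => U a

instance instTTgrp : ∀ x, AddCommGroup (TT ι U x)
  | Sum.inl i => inferInstanceAs (AddCommGroup (ι i → K))
  | Sum.inr a => inferInstanceAs (AddCommGroup (U a))

instance instTTmod : ∀ x, Module K (TT ι U x)
  | Sum.inl i => inferInstanceAs (Module K (ι i → K))
  | Sum.inr a => inferInstanceAs (Module K (U a))

instance instTTfin : ∀ x, FiniteDimensional K (TT ι U x)
  | Sum.inl i => inferInstanceAs (FiniteDimensional K (ι i → K))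
  | Sum.inr a => inferInstanceAs (FiniteDimensional K (U a))

/-- the inclusions -/
def jj (hn : ∀ i, 0 < n i) : ∀ x, TT ι U x →ₗ[K] (Idx κ ι n → K)
  | Sum.inl i => inc κ K i ⟨0, hn i⟩
  | Sum.inr a => incB ι n K ∘ₗ (U a).subtype

/-- a projection to a subspace -/
def qq (a : Fin m) : (κ → K) →ₗ[K] U a :=
  Classical.choose (LinearMap.exists_leftInverse_of_injective (U a).subtype
    (Submodule.ker_subtype (U a)))

theorem qq_apply (a : Fin m) (u : U a) : qq U a u = u :=
  LinearMap.congr_fun (Classical.choose_spec (LinearMap.exists_leftInverse_of_injective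
    (U a).subtype (Submodule.ker_subtype (U a)))) u

/-- the projections -/
def ll (hn : ∀ i, 0 < n i) : ∀ x, (Idx κ ι n → K) →ₗ[K] TT ι U x
  | Sum.inl i => pr κ K i ⟨0, hn i⟩
  | Sum.inr a => qq U a ∘ₗ prB ι n K

theorem ll_jj (hn : ∀ i, 0 < n i) (x : I ⊕ Fin m) (v : TT ι U x) :
    ll U hn x (jj U hn x v) = v := by
  rcases x with i | a
  · exact pr_inc i _ v
  · exact qq_apply U a v

theorem jj_stab (hn : ∀ i, 0 < n i)
    (hU : ∀ a, ∃ Δ : Subgroup Γ, Δ.FiniteIndex ∧ ∀ g ∈ Δ, ∀ x ∈ U a, repM ρB K g x ∈ U a)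
    (x : I ⊕ Fin m) : ∃ Δ : Subgroup Γ, Δ.FiniteIndex ∧
      ∀ g ∈ Δ, ∀ v, ∃ w, RT n ρB ρ K g (jj U hn x v) = jj (ι := ι) U hn x w := by
  rcases x with i | a
  · exact ⟨⊤, inferInstance, fun g _ v => ⟨repM (ρ i) K g v, RT_inc g i _ v⟩⟩
  · obtain ⟨Δ, hΔ, h⟩ := hU a
    exact ⟨Δ, hΔ, fun g hg v => ⟨⟨repM ρB K g v.1, h g hg _ v.2⟩, RT_incB g _⟩⟩

end TT

variable [CharZero K] [IsAlgClosed K]

/-- the symplectic members -/
def syMem {m : ℕ} (U : Fin m → Submodule K (κ → K)) (hn : ∀ i, 0 < n i)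
    (hfi : ∀ i s, (ρ i s).transpose * ψ i * ρ i s = χ s • ψ i)
    (hal : ∀ i, (ψ i).transpose = -ψ i) (hnd : ∀ i, IsUnit (ψ i).det)
    (hG : GoodFamily (chK χ K) (repM ρB K) fun i => repM (ρ i) K) (i : I) :
    SyMem (T := TT ι U) (RT n ρB ρ K) (ωT n ψB ψ K) (chK χ K) (jj U hn) (Sum.inl i) where
  ρ := repM (ρ i) K
  eqv g v := RT_inc g i _ v
  B := fK K (ψ i)
  hB u v := ωT_inc i _ u v
  al := fK_al (hal i)
  nd := fK_nd (hnd i)
  inv := fK_inv (hfi i)
  irr := hG.irreducible i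
  γ := Classical.choose (hG.toric i)
  sq := RT_sq (Classical.choose_spec (hG.toric i)).1
  defect := by
    have h := (Classical.choose_spec (hG.toric i)).2
    have h1 : ∀ d, IsDefect (SquareZero (repM ρB K) (fun i => repM (ρ i) K)) (repM (ρ i) K)
        (Classical.choose (hG.toric i)) d →
        (d = finrank K (LinearMap.range (repM (ρ i) K (Classical.choose (hG.toric i)) - 1)) ∨
        ∃ γ' : Γ, (RT n ρB ρ K γ' - 1) * (RT n ρB ρ K γ' - 1) = 0 ∧ ∃ a : K, a ≠ 0 ∧
          d = finrank K (Module.End.maxGenEigenspace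
            ((repM (ρ i) K (Classical.choose (hG.toric i)) - 1) * (repM (ρ i) K γ' - 1)) a)) := by
      rintro d (h2 | ⟨γ', h2, h3⟩)
      · exact Or.inl h2
      · exact Or.inr ⟨γ', RT_sq h2, h3⟩
    rcases h with h | h
    · refine Or.inl fun p hp => ?_
      obtain ⟨d, h2, h3⟩ := h p hp
      exact ⟨d, h1 d h2, h3⟩
    · exact Or.inr (h1 2 h)

section small

variable {m : ℕ} {U : Fin m → Submodule K (κ → K)} (hn : ∀ i, 0 < n i)
  (hfB : ∀ s, (ρB s).transpose * ψB * ρB s = χ s • ψB)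
  (hfi : ∀ i s, (ρ i s).transpose * ψ i * ρ i s = χ s • ψ i)
  (hal : ∀ i, (ψ i).transpose = -ψ i) (hnd : ∀ i, IsUnit (ψ i).det)
  (hG : GoodFamily (chK χ K) (repM ρB K) fun i => repM (ρ i) K)
  (hU : ∀ a, ∃ Δ : Subgroup Γ, Δ.FiniteIndex ∧ ∀ g ∈ Δ, ∀ x ∈ U a, repM ρB K g x ∈ U a)

include hfB hfi hal hnd hG hU in
/-- two symplectic members -/
theorem good_two {i i' : I} (hii : i ≠ i') :
    Gd (mm (RT n ρB ρ K) (ωT n ψB ψ K) (jj (ι := ι) U hn) (ll U hn)) (Sum.inl i)
      (Sum.inl i') := by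
  refine good_of_noHom (χ := chK χ K) (ll_jj U hn) (jj_stab U hn hU)
    (fK_inv (sum_form hfB hfi)) (syMem U hn hfi hal hnd hG i)
    (syMem U hn hfi hal hnd hG i') (fun f ε hf => ?_)
  exact noHom_up (chK χ K) (repM (ρ i) K) (repM (ρ i') K) (B := fK K (ψ i)) (B' := fK K (ψ i'))
    (fK_nd (hnd i)) (fK_nd (hnd i')) (fK_inv (hfi i)) (fK_inv (hfi i'))
    (fun W hW => hG.irreducible i ⊤ inferInstance W fun g _ => hW g)
    (fun W hW => hG.irreducible i' ⊤ inferInstance W fun g _ => hW g)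
    (hG.noHom i i' hii) f ε hf

include hfB hfi hU in
/-- the forms on the subspaces -/
theorem form_skew {a : Fin m} (h0 : ∃ x y, ωT n ψB ψ K x y ≠ 0) {Δ : Subgroup Γ}
    (hΔ : Δ.FiniteIndex) {F : (κ → K) →ₗ[K] (κ → K) →ₗ[K] K}
    (hF : ∀ g ∈ Δ, ∀ x ∈ U a, ∀ y ∈ U a, F (repM ρB K g x) (repM ρB K g y) =
      chK χ K g * F x y) :
    ∀ D ∈ mm (RT n ρB ρ K) (ωT n ψB ψ K) (jj (ι := ι) U hn) (ll U hn),
      Skew ((F.comp (U a).subtype).compl₂ (U a).subtype) (D (Sum.inr a)) := by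
  rintro _ ⟨y, hy, rfl⟩ u v
  have h1 := Lg_form_on (R := RT n ρB ρ K) (χ := chK χ K) (ω := ωT n ψB ψ K)
    (fK_inv (sum_form hfB hfi)) h0 (U := (U a).map (incB ι n K)) hΔ
    (F := (F.comp (prB ι n K)).compl₂ (prB ι n K)) (by
      rintro g hg _ ⟨x, hx, rfl⟩ _ ⟨y, hy, rfl⟩
      change F (prB ι n K (RT n ρB ρ K g (incB ι n K x))) (prB ι n K (RT n ρB ρ K g
        (incB ι n K y))) = _ * F (prB ι n K (incB ι n K x)) (prB ι n K (incB ι n K y))
      rw [RT_prB, RT_prB, prB_incB, prB_incB]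
      exact hF g hg x hx y hy) hy.1 hy.2 (u := incB ι n K u.1) (v := incB ι n K v.1)
    ⟨u.1, u.2, rfl⟩ ⟨v.1, v.2, rfl⟩
  have h2 : ∀ w : U a, (U a).subtype (cmp (jj (ι := ι) U hn) (ll U hn) y (Sum.inr a) w) =
      prB ι n K (y (incB ι n K w.1)) := by
    intro w
    have h3 := j_cmp (ll_jj U hn) (jj_stab U hn hU) hy.1 (Sum.inr a) w
    have h4 := congrArg (prB ι n K) h3
    exact h4
  change F ((U a).subtype (cmp (jj (ι := ι) U hn) (ll U hn) y (Sum.inr a) u)) v.1 +
    F u.1 ((U a).subtype (cmp (jj (ι := ι) U hn) (ll U hn) y (Sum.inr a) v)) = 0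
  rw [h2, h2]
  exact h1

include hfB hfi hal hnd hG hU in
/-- the small members -/
theorem good_small {i : I} {a : Fin m}
    (hs : IsSmall (SquareZero (repM ρB K) (fun i => repM (ρ i) K)) (chK χ K) (repM ρB K)
      (repM (ρ i) K) (U a)) :
    Gd (mm (RT n ρB ρ K) (ωT n ψB ψ K) (jj (ι := ι) U hn) (ll U hn)) (Sum.inl i)
      (Sum.inr a) := by
  have hω := fK_inv (K := K) (sum_form (n := n) hfB hfi)
  obtain ⟨o, ho⟩ := (syMem (ψB := ψB) (n := n) U hn hfi hal hnd hG i).exists_ms (ll_jj U hn)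
    (jj_stab U hn hU) hω
  have hbk := mm_bk (R := RT n ρB ρ K) (ω := ωT n ψB ψ K) (ll_jj (ι := ι) U hn) (jj_stab U hn hU)
  have h0 : ∃ x y, ωT n ψB ψ K x y ≠ 0 := by
    obtain ⟨x, hx⟩ := o.ne
    by_contra hcon
    push Not at hcon
    refine hx (o.nd x fun y => ?_)
    rw [ho]
    have h1 := hcon (inc κ K i ⟨0, hn i⟩ x) (inc κ K i ⟨0, hn i⟩ y)
    exact (ωT_inc (ψB := ψB) (ψ := ψ) i ⟨0, hn i⟩ x y).symm.trans h1
  obtain ⟨-, hs | ⟨γ, hγ, hs⟩⟩ := hs
  · rcases hs with hs | ⟨⟨Δ, F, hΔ, hsy, hFn, hF⟩, hs⟩ | ⟨⟨Δ, F, hΔ, hsy, hFn, hF⟩, hs, -⟩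
    · exact good_of_dim o hs
    · refine good_of_alt o (B := (F.comp (U a).subtype).compl₂ (U a).subtype)
        (form_skew hn hfB hfi hU h0 hΔ hF) (fun x y => ?_) (fun x hx => ?_) hs
      · change F x.1 y.1 = -F y.1 x.1
        rw [hsy x.1 x.2 y.1 y.2, neg_one_mul]
      · exact Subtype.ext (hFn x.1 x.2 fun y hy => hx ⟨y, hy⟩)
    · refine good_of_sym o (B := (F.comp (U a).subtype).compl₂ (U a).subtype)
        (form_skew hn hfB hfi hU h0 hΔ hF) (fun x y => ?_) (fun x hx => ?_) hs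
      · change F x.1 y.1 = F y.1 x.1
        rw [hsy x.1 x.2 y.1 y.2, one_mul]
      · exact Subtype.ext (hFn x.1 x.2 fun y hy => hx ⟨y, hy⟩)
  · have hJ : cmp (jj (ι := ι) U hn) (ll U hn) (RT n ρB ρ K γ - 1) ∈
        mm (RT n ρB ρ K) (ωT n ψB ψ K) (jj (ι := ι) U hn) (ll U hn) :=
      ⟨_, NN_unip hω h0 (RT_sq hγ), rfl⟩
    have hJt : cmp (jj (ι := ι) U hn) (ll U hn) (RT n ρB ρ K γ - 1) (Sum.inl i) =
        (repM (ρ i) K γ - 1 : Module.End K (ι i → K)) :=
      (syMem (ψB := ψB) U hn hfi hal hnd hG i).cmp_unip (ll_jj U hn) γ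
    have hJa : ∀ w : U a, (U a).subtype (cmp (jj (ι := ι) U hn) (ll U hn)
        (RT n ρB ρ K γ - 1) (Sum.inr a) w) = (repM ρB K γ - 1) w.1 := by
      intro w
      have h3 := j_cmp (ll_jj U hn) (jj_stab U hn hU)
        (NN_unip (ω := ωT n ψB ψ K) hω h0 (RT_sq (n := n) hγ)).1 (Sum.inr a) w
      have h4 := congrArg (prB ι n K) h3
      refine h4.trans ?_
      change prB ι n K ((RT n ρB ρ K γ - 1) (incB ι n K w.1)) = _
      rw [LinearMap.sub_apply, LinearMap.sub_apply, map_sub, RT_incB, prB_incB]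
      rfl
    have hJt2 : (cmp (jj (ι := ι) U hn) (ll U hn) (RT n ρB ρ K γ - 1) (Sum.inl i) :
        Module.End K (ι i → K)) * cmp (jj (ι := ι) U hn) (ll U hn) (RT n ρB ρ K γ - 1)
          (Sum.inl i) = 0 := by
      rw [hJt]
      exact hγ.2 i
    have hJa2 : (cmp (jj (ι := ι) U hn) (ll U hn) (RT n ρB ρ K γ - 1) (Sum.inr a) :
        Module.End K (U a)) * cmp (jj (ι := ι) U hn) (ll U hn) (RT n ρB ρ K γ - 1)
          (Sum.inr a) = 0 := by
      apply LinearMap.ext
      intro w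
      apply Subtype.ext
      rw [Module.End.mul_apply]
      refine (hJa _).trans ?_
      have h6 := hJa w
      have h5 := LinearMap.congr_fun hγ.1 w.1
      rw [Module.End.mul_apply, ← h6] at h5
      exact h5
    have hrt : finrank K (LinearMap.range (cmp (jj (ι := ι) U hn) (ll U hn)
        (RT n ρB ρ K γ - 1) (Sum.inl i))) = finrank K (LinearMap.range (repM (ρ i) K γ - 1)) := by
      rw [hJt]
      rfl
    have hra : finrank K (LinearMap.range (cmp (jj (ι := ι) U hn) (ll U hn)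
        (RT n ρB ρ K γ - 1) (Sum.inr a))) = finrank K ((U a).map (repM ρB K γ - 1)) := by
      have h1 : (LinearMap.range (cmp (jj (ι := ι) U hn) (ll U hn)
          (RT n ρB ρ K γ - 1) (Sum.inr a) : Module.End K (U a))).map (U a).subtype =
          (U a).map (repM ρB K γ - 1) := by
        apply le_antisymm
        · rintro _ ⟨_, ⟨w, rfl⟩, rfl⟩
          exact ⟨w.1, w.2, (hJa w).symm⟩
        · rintro _ ⟨w, hw, rfl⟩
          exact ⟨_, ⟨⟨w, hw⟩, rfl⟩, hJa ⟨w, hw⟩⟩
      rw [← h1]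
      exact (Submodule.finrank_map_subtype_eq _ _).symm
    rcases hs with hs | ⟨⟨Δ, F, hΔ, hsy, hFn, hF⟩, hs⟩ | ⟨⟨Δ, F, hΔ, hsy, hFn, hF⟩, hs, h5⟩
    · refine good_of_rank hbk o hJ hJt2 hJa2 ?_
      rw [hrt, hra]
      exact hs
    · refine good_of_rank_form hbk o hJ hJt2 hJa2
        (B := (F.comp (U a).subtype).compl₂ (U a).subtype)
        (form_skew hn hfB hfi hU h0 hΔ hF) (fun x hx => ?_) (Or.inr ⟨fun x y => ?_, ?_⟩)
      · exact Subtype.ext (hFn x.1 x.2 fun y hy => hx ⟨y, hy⟩)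
      · change F x.1 y.1 = -F y.1 x.1
        rw [hsy x.1 x.2 y.1 y.2, neg_one_mul]
      · rw [hrt, hra]
        exact hs
    · refine good_of_rank_form hbk o hJ hJt2 hJa2
        (B := (F.comp (U a).subtype).compl₂ (U a).subtype)
        (form_skew hn hfB hfi hU h0 hΔ hF) (fun x hx => ?_) (Or.inl ⟨fun x y => ?_, ?_, ?_⟩)
      · exact Subtype.ext (hFn x.1 x.2 fun y hy => hx ⟨y, hy⟩)
      · change F x.1 y.1 = F y.1 x.1
        rw [hsy x.1 x.2 y.1 y.2, one_mul]
      · rw [hrt, hra]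
        exact hs
      · rw [hrt]
        exact h5

end small

variable (hn : ∀ i, 0 < n i)
  (hfB : ∀ s, (ρB s).transpose * ψB * ρB s = χ s • ψB)
  (hfi : ∀ i s, (ρ i s).transpose * ψ i * ρ i s = χ s • ψ i)
  (hal : ∀ i, (ψ i).transpose = -ψ i) (hnd : ∀ i, IsUnit (ψ i).det)
  (hG : GoodFamily (chK χ K) (repM ρB K) fun i => repM (ρ i) K)

include hn hfB hfi hal hnd hG in
/-- **The operators on one factor.** -/
theorem exists_y (i : I) (u v : ι i → K) :
    ∃ y ∈ Lg (RT n ρB ρ K), (∀ x, y (incB ι n K x) = 0) ∧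
      (∀ i', i' ≠ i → ∀ m w, y (inc κ K i' m w) = 0) ∧
      ∀ m w, y (inc κ K i m w) = inc κ K i m (oo (fK K (ψ i)) (-1) u v w) := by
  classical
  obtain ⟨m, U, hU, hsup⟩ := hG.small i
  have hU' : ∀ a, ∃ Δ : Subgroup Γ, Δ.FiniteIndex ∧ ∀ g ∈ Δ, ∀ x ∈ U a, repM ρB K g x ∈ U a :=
    fun a => (hU a).1
  obtain ⟨y, hy, h1, h2⟩ := exists_lift (ll_jj U hn) (jj_stab U hn hU')
    (fK_inv (K := K) (sum_form (n := n) hfB hfi))
    (syMem (ψB := ψB) U hn hfi hal hnd hG i) (by
      rintro (i' | a) ha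
      · exact good_two hn hfB hfi hal hnd hG hU' (fun h => ha (by rw [h]))
      · exact good_small hn hfB hfi hal hnd hG hU' (hU a)) u v
  have hcomm : ∀ i' (m m' : Fin (n i')), y * (inc κ K i' m ∘ₗ pr κ K i' m') =
      (inc κ K i' m ∘ₗ pr κ K i' m') * y := by
    intro i' m m'
    refine Lg_comm hy ⟨⊤, inferInstance, fun g _ => LinearMap.ext fun x => ?_⟩
    change inc κ K i' m (pr κ K i' m' (RT n ρB ρ K g x)) =
      RT n ρB ρ K g (inc κ K i' m (pr κ K i' m' x))
    rw [RT_pr, RT_inc]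
  have htr : ∀ i' (m : Fin (n i')) w, y (inc κ K i' m w) =
      inc κ K i' m (pr κ K i' ⟨0, hn i'⟩ (y (inc κ K i' ⟨0, hn i'⟩ w))) := by
    intro i' m w
    have h3 := LinearMap.congr_fun (hcomm i' m ⟨0, hn i'⟩) (inc κ K i' ⟨0, hn i'⟩ w)
    change y (inc κ K i' m (pr κ K i' ⟨0, hn i'⟩ (inc κ K i' ⟨0, hn i'⟩ w))) =
      inc κ K i' m (pr κ K i' ⟨0, hn i'⟩ (y (inc κ K i' ⟨0, hn i'⟩ w))) at h3
    rwa [pr_inc] at h3
  refine ⟨y, hy, fun x => ?_, fun i' hi' m w => ?_, fun m w => ?_⟩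
  · have h3 : ⨆ a, U a ≤ LinearMap.ker (y ∘ₗ incB ι n K) := by
      refine iSup_le fun a x hx => ?_
      have h4 := h1 (Sum.inr a) (by simp) ⟨x, hx⟩
      exact h4
    rw [hsup] at h3
    exact h3 (Submodule.mem_top (x := x))
  · have h3 : y (inc κ K i' ⟨0, hn i'⟩ w) = 0 := h1 (Sum.inl i') (fun h => hi' (Sum.inl_injective h)) w
    rw [htr, h3, map_zero, map_zero]
  · have h3 : y (inc κ K i ⟨0, hn i⟩ w) =
        inc κ K i ⟨0, hn i⟩ (oo (fK K (ψ i)) (-1) u v w) := h2 w
    rw [htr, h3, pr_inc]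

/-- the operator with the components `g i` -/
def Ex (κ : Type) [Fintype κ] [DecidableEq κ] (n : I → ℕ)
    (g : ∀ i, Module.End K (ι i → K)) : Module.End K (Idx κ ι n → K) :=
  Matrix.toLin' (blocks n 1 fun i => LinearMap.toMatrix' (g i))

theorem Ex_incB (g : ∀ i, Module.End K (ι i → K)) (x : κ → K) :
    Ex κ n g (incB ι n K x) = incB ι n K x := by
  change Matrix.toLin' _ _ = _
  rw [Matrix.toLin'_apply, blocks_incB, Matrix.one_mulVec]

theorem Ex_inc (g : ∀ i, Module.End K (ι i → K)) (i : I) (m : Fin (n i)) (w : ι i → K) :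
    Ex κ n g (inc κ K i m w) = inc κ K i m (g i w) := by
  change Matrix.toLin' _ _ = _
  rw [Matrix.toLin'_apply, blocks_inc, LinearMap.toMatrix'_mulVec]

theorem Ex_mul (g h : ∀ i, Module.End K (ι i → K)) :
    Ex κ n (fun i => g i * h i) = Ex κ n g * Ex κ n h := by
  refine ext_blk (fun v => ?_) (fun i m v => ?_)
  · rw [Module.End.mul_apply, Ex_incB, Ex_incB, Ex_incB]
  · rw [Module.End.mul_apply, Ex_inc, Ex_inc, Ex_inc]
    rfl

theorem Ex_one : Ex κ n (fun i => (1 : Module.End K (ι i → K))) = 1 := by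
  refine ext_blk (fun v => ?_) (fun i m v => ?_)
  · rw [Ex_incB]
    rfl
  · rw [Ex_inc]
    rfl

include hn hfB hfi hal hnd hG in
theorem Ex_mem_one (i : I) (g : Module.End K (ι i → K))
    (hg : ∀ u v, fK K (ψ i) (g u) (g v) = fK K (ψ i) u v) :
    InZ (RT n ρB ρ K) (Ex κ n (Function.update (fun i => (1 : Module.End K (ι i → K))) i g)) := by
  have h1 := hTR K (ι i → K) (fK K (ψ i)) (alt_self (fK_al (hal i))) (fK_nd (hnd i)) g hg
  clear hg
  induction h1 using Submonoid.closure_induction with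
  | mem T hT =>
    obtain ⟨c, u, rfl⟩ := hT
    obtain ⟨y, hy, k1, k2, k3⟩ := exists_y hn hfB hfi hal hnd hG i u u
    have hu0 : fK K (ψ i) u u = 0 := alt_self (fK_al (hal i)) u
    have hyy : y * y = 0 := by
      refine ext_blk (fun v => ?_) (fun i' m v => ?_)
      · rw [Module.End.mul_apply, k1, map_zero]
        rfl
      · by_cases hi : i' = i
        · subst hi
          rw [Module.End.mul_apply, k3, k3]
          rw [o_apply, o_apply]
          simp only [map_add, map_smul, hu0, smul_eq_mul, mul_zero, add_zero, zero_smul, map_zero]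
          rfl
        · rw [Module.End.mul_apply, k2 i' hi, map_zero]
          rfl
    have h2 : Ex κ n (Function.update (fun i => (1 : Module.End K (ι i → K))) i
        (1 + c • (fK K (ψ i) u).smulRight u)) = 1 + (c / 2) • y := by
      refine ext_blk (fun v => ?_) (fun i' m v => ?_)
      · rw [Ex_incB, LinearMap.add_apply, LinearMap.smul_apply, k1, smul_zero, add_zero]
        rfl
      · by_cases hi : i' = i
        · subst hi
          have e1 : (1 + (c / 2) • y : Module.End K (Idx κ ι n → K)) (inc κ K i' m v) =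
            inc κ K i' m v + (c / 2) • y (inc κ K i' m v) := rfl
          rw [Ex_inc, Function.update_self, e1, k3, ← map_smul, ← map_add]
          congr 1
          rw [LinearMap.add_apply, LinearMap.smul_apply, LinearMap.smulRight_apply, o_apply,
            ← add_smul, smul_smul, smul_smul]
          change v + _ = v + _
          congr 2
          ring
        · rw [Ex_inc, Function.update_of_ne hi, LinearMap.add_apply, LinearMap.smul_apply,
            k2 i' hi, smul_zero, add_zero]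
          rfl
    rw [h2]
    exact InZ_unip hUN hy hyy _
  | one =>
    have h2 : Function.update (fun i => (1 : Module.End K (ι i → K))) i 1 = fun i => 1 := by
      funext i'
      by_cases hi : i' = i
      · subst hi
        rw [Function.update_self]
      · rw [Function.update_of_ne hi]
    rw [h2, Ex_one]
    exact InZ_one
  | mul g h _ _ ihg ihh =>
    have h2 : Function.update (fun i => (1 : Module.End K (ι i → K))) i (g * h) = fun i' =>
        Function.update (fun i => (1 : Module.End K (ι i → K))) i g i' *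
          Function.update (fun i => (1 : Module.End K (ι i → K))) i h i' := by
      funext i'
      by_cases hi : i' = i
      · subst hi
        rw [Function.update_self, Function.update_self, Function.update_self]
      · rw [Function.update_of_ne hi, Function.update_of_ne hi, Function.update_of_ne hi, mul_one]
    rw [h2, Ex_mul]
    exact InZ_mul ihg ihh

include hn hfB hfi hal hnd hG in
/-- **The product of the symplectic groups is in the identity component.** -/
theorem Ex_mem (g : ∀ i, Module.End K (ι i → K))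
    (hg : ∀ i u v, fK K (ψ i) (g i u) (g i v) = fK K (ψ i) u v) :
    InZ (RT n ρB ρ K) (Ex κ n g) := by
  have key : ∀ S : Finset I, InZ (RT n ρB ρ K)
      (Ex κ n fun i => if i ∈ S then g i else 1) := by
    intro S
    induction S using Finset.induction_on with
    | empty =>
      have h2 : (fun i => if i ∈ (∅ : Finset I) then g i else 1) =
          fun i => (1 : Module.End K (ι i → K)) := by
        funext i
        rw [if_neg (Finset.notMem_empty i)]
      rw [h2, Ex_one]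
      exact InZ_one
    | insert a S ha ih =>
      have h2 : (fun i => if i ∈ insert a S then g i else 1) = fun i =>
          Function.update (fun i => (1 : Module.End K (ι i → K))) a (g a) i *
            (if i ∈ S then g i else 1) := by
        funext i
        by_cases hi : i = a
        · subst hi
          rw [if_pos (Finset.mem_insert_self _ _), Function.update_self, if_neg ha, mul_one]
        · rw [Function.update_of_ne hi, one_mul]
          simp only [Finset.mem_insert, hi, false_or]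
      rw [h2, Ex_mul]
      exact InZ_mul (Ex_mem_one hn hfB hfi hal hnd hG a (g a) (hg a)) ih
  have h1 := key Finset.univ
  simp only [Finset.mem_univ, if_true] at h1
  exact h1

end

end Pool.Agent.X292.ZP
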