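import Mathlib
import Pool.Agent.X292.ZP.Blk
import Pool.Agent.W528.ZC.FinDefs2

/-!
# Products of an abelian variety with abelian varieties with toric places: definitions
-/

set_option autoImplicit false

namespace Pool.Agent.X292.ZP

open Module

section Hyp

variable {K : Type} [Field K] {Γ : Type} [Group Γ] {V : Type} [AddCommGroup V] [Module K V]
  {V' : Type} [AddCommGroup V'] [Module K V']

/-- Every subspace which is stable under a subgroup of finite index is zero or everything. -/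
def StronglyIrreducible (ρ : Representation K Γ V) : Prop :=
  ∀ Δ : Subgroup Γ, Δ.FiniteIndex → ∀ W : Submodule K V, (∀ g ∈ Δ, ∀ u ∈ W, ρ g u ∈ W) →
    W = ⊥ ∨ W = ⊤

/-- No nonzero linear map from the space of `ρ'` to the space of `ρ` commutes with a subgroup of
finite index. -/
def NoHom (ρ : Representation K Γ V) (ρ' : Representation K Γ V') : Prop :=
  ∀ (f : V' →ₗ[K] V) (Δ : Subgroup Γ), Δ.FiniteIndex →
    (∀ g ∈ Δ, ∀ x, f (ρ' g x) = ρ g (f x)) → f = 0

/-- The operator `(γ - 1) ^ 2` is zero. -/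
def SqZero (ρ : Representation K Γ V) (γ : Γ) : Prop := (ρ γ - 1) * (ρ γ - 1) = 0

/-- The number `d` is a *defect* of `γ`: the rank of `γ - 1`, or the algebraic multiplicity of a
nonzero eigenvalue of `(γ - 1) (γ' - 1)`, for an element `γ'` with the property `P`. -/
def IsDefect (P : Γ → Prop) (ρ : Representation K Γ V) (γ : Γ) (d : ℕ) : Prop :=
  d = finrank K (LinearMap.range (ρ γ - 1)) ∨
    ∃ γ' : Γ, P γ' ∧ ∃ a : K, a ≠ 0 ∧
      d = finrank K (Module.End.maxGenEigenspace ((ρ γ - 1) * (ρ γ' - 1)) a)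

/-- Some element `γ` with the property `P` has defects without a common prime factor, or the defect
two. -/
def HasToricElement (P : Γ → Prop) (ρ : Representation K Γ V) : Prop :=
  ∃ γ : Γ, P γ ∧ ((∀ p : ℕ, p.Prime → ∃ d, IsDefect P ρ γ d ∧ ¬ p ∣ d) ∨ IsDefect P ρ γ 2)

/-- The subspace `U` of `V` carries a nondegenerate form `F` with `F(x, y) = s F(y, x)` and with the
multiplier `χ`, for a subgroup of finite index. -/
def FormOn (χ : Γ →* K) (ρ : Representation K Γ V) (U : Submodule K V) (s : K) : Prop :=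
  ∃ (Δ : Subgroup Γ) (F : V →ₗ[K] V →ₗ[K] K), Δ.FiniteIndex ∧
    (∀ x ∈ U, ∀ y ∈ U, F x y = s * F y x) ∧ (∀ x ∈ U, (∀ y ∈ U, F x y = 0) → x = 0) ∧
    ∀ g ∈ Δ, ∀ x ∈ U, ∀ y ∈ U, F (ρ g x) (ρ g y) = χ g * F x y

/-- The number `s`, attached to `U`, is small compared to `r`: `2 s ^ 2 < r (r + 1)`; or `s < r` and
`U` carries an alternating form; or `s ≤ r`, `r ≠ 0` and `U` carries a symmetric form. -/
def Smaller (χ : Γ →* K) (ρ : Representation K Γ V) (U : Submodule K V) (s r : ℕ) : Prop :=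
  2 * s ^ 2 < r * (r + 1) ∨ (FormOn χ ρ U (-1) ∧ s < r) ∨ (FormOn χ ρ U 1 ∧ s ≤ r ∧ 0 < r)

/-- The subspace `U` of `V` is stable under a subgroup of finite index, and its dimension is small
compared to the dimension of `V'`, or, for some `γ` with the property `P`, the rank of `γ - 1` on
`U` is small compared to its rank on `V'`. -/
def IsSmall (P : Γ → Prop) (χ : Γ →* K) (ρ : Representation K Γ V) (ρ' : Representation K Γ V')
    (U : Submodule K V) : Prop :=
  (∃ Δ : Subgroup Γ, Δ.FiniteIndex ∧ ∀ g ∈ Δ, ∀ x ∈ U, ρ g x ∈ U) ∧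
    (Smaller χ ρ U (finrank K U) (finrank K V') ∨
      ∃ γ : Γ, P γ ∧ Smaller χ ρ U (finrank K (U.map (ρ γ - 1)))
        (finrank K (LinearMap.range (ρ' γ - 1))))

variable {I : Type} {W : I → Type} [∀ i, AddCommGroup (W i)] [∀ i, Module K (W i)]
  (χ : Γ →* K) (RB : Representation K Γ V) (R : ∀ i, Representation K Γ (W i))

/-- The operator `(γ - 1) ^ 2` is zero on `V` and on all the `W i`. -/
def SquareZero (γ : Γ) : Prop := SqZero RB γ ∧ ∀ i, SqZero (R i) γ

/-- The representations `R i` are strongly irreducible, without homomorphisms between them over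
subgroups of finite index, with toric elements; and for each `i` the space `V` is the sum of
subspaces which are small compared to `W i`. -/
structure GoodFamily : Prop where
  irreducible : ∀ i, StronglyIrreducible (R i)
  noHom : ∀ i j, i ≠ j → NoHom (R i) (R j)
  toric : ∀ i, HasToricElement (SquareZero RB R) (R i)
  small : ∀ i, ∃ (m : ℕ) (U : Fin m → Submodule K V),
    (∀ a, IsSmall (SquareZero RB R) χ RB (R i) (U a)) ∧ ⨆ a, U a = ⊤

end Hyp

variable {I : Type} [Fintype I] [DecidableEq I] {κ : Type} [Fintype κ] [DecidableEq κ]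
  {ι : I → Type} [∀ i, Fintype (ι i)] [∀ i, DecidableEq (ι i)] {Γ : Type} [Group Γ]

/-- The direct sum of `ρB` and of `n i` copies of `ρ i`, for all `i`. -/
def sumRep {k : Type} [Field k] (n : I → ℕ) (ρB : Γ →* Matrix κ κ k)
    (ρ : ∀ i, Γ →* Matrix (ι i) (ι i) k) : Γ →* Matrix (Idx κ ι n) (Idx κ ι n) k where
  toFun s := blocks n (ρB s) fun i => ρ i s
  map_one' := by simp only [map_one, blocks_one]
  map_mul' s t := by rw [blocks_mul]; simp only [map_mul]

open Pool.Agent.W528.ZC (mapQ repM InIdentityComponent IsZeroOf)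

/-- The forms have the multiplier `χ`, the multiplier has infinite order, and `GoodFamily` holds
over the algebraic closure. -/
structure GoodAt (ψB : Matrix κ κ ℚ) (ψ : ∀ i, Matrix (ι i) (ι i) ℚ) (ℓ : ℕ) [Fact ℓ.Prime]
    (ρB : Γ →* Matrix κ κ ℚ_[ℓ]) (ρ : ∀ i, Γ →* Matrix (ι i) (ι i) ℚ_[ℓ]) (χ : Γ →* ℚ_[ℓ]) :
    Prop where
  formB : ∀ s, (ρB s).transpose * mapQ ℚ_[ℓ] ψB * ρB s = χ s • mapQ ℚ_[ℓ] ψB
  form : ∀ i s, (ρ i s).transpose * mapQ ℚ_[ℓ] (ψ i) * ρ i s = χ s • mapQ ℚ_[ℓ] (ψ i)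
  infinite : ∀ Δ : Subgroup Γ, Δ.FiniteIndex → ∃ s ∈ Δ, χ s ≠ 1
  family : GoodFamily ((algebraMap ℚ_[ℓ] (AlgebraicClosure ℚ_[ℓ])).toMonoidHom.comp χ)
    (repM ρB (AlgebraicClosure ℚ_[ℓ])) fun i => repM (ρ i) (AlgebraicClosure ℚ_[ℓ])

/-- There is a set `S` of polynomials over `ℚ` whose invertible zeros over the algebraic closure of
`ℚ_ℓ` are, for all sufficiently large primes `ℓ`, the elements of the identity component of the
Zariski closure of the image of `ρ ℓ` (of each subgroup of finite index). -/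
def HasCommonForm {τ : Type} [Fintype τ] [DecidableEq τ]
    (ρ : ∀ (ℓ : ℕ) [Fact ℓ.Prime], Γ →* Matrix τ τ ℚ_[ℓ]) : Prop :=
  ∃ (ℓ₁ : ℕ) (S : Set (MvPolynomial (τ × τ) ℚ)), ∀ (ℓ : ℕ) [Fact ℓ.Prime], ℓ₁ ≤ ℓ →
    ∀ Γ' : Subgroup Γ, Γ'.FiniteIndex → ∀ g : Matrix τ τ (AlgebraicClosure ℚ_[ℓ]), IsUnit g.det →
      (InIdentityComponent ((ρ ℓ).comp Γ'.subtype) g ↔ IsZeroOf S g)

end Pool.Agent.X292.ZP
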