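import Pool.Agent.X292.ZP.Fam
import Pool.Agent.X292.ZP.Iso
import Pool.Agent.X292.ZP.Pub
import Pool.Agent.W528.ZC.Fin

/-!
# The identity component contains the product of the symplectic groups
-/

set_option linter.unusedSectionVars false

namespace Pool.Agent.X292.ZP

open Module Pool.Agent.TH125.Gal Pool.Agent.Y127.G Pool.Agent.Y127.C
  Pool.Agent.X292.SP Pool.Agent.X292.TG Pool.Agent.X292.TS Pool.Agent.X292.AV
open Pool.Agent.W528.ZC (Lg InZ Lg_br Lg_conj Lg_unip Lg_form hBR hCJ hUN hTR repM repM_apply bf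
  bf_apply bf_nondeg bf_mul bf_smul Lg_comm InZ_one InZ_mul InZ_unip toM)

noncomputable section

variable {I : Type} [Fintype I] [DecidableEq I] {κ : Type} [Fintype κ] [DecidableEq κ]
  {ι : I → Type} [∀ i, Fintype (ι i)] [∀ i, DecidableEq (ι i)] {Γ : Type} [Group Γ]
  {n : I → ℕ} {k : Type} [Field k] {K : Type} [Field K] [Algebra k K]
  {ρB : Γ →* Matrix κ κ k} {ρ : ∀ i, Γ →* Matrix (ι i) (ι i) k}

section dot

variable {L : Type} [CommRing L]

theorem incB_dot (u : κ → L) (x : Idx κ ι n → L) : incB ι n L u ⬝ᵥ x = u ⬝ᵥ prB ι n L x := by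
  rw [dotProduct, Fintype.sum_sum_type]
  simp only [incB_inr, zero_mul, Finset.sum_const_zero, add_zero, incB_inl]
  rfl

theorem inc_dot (i : I) (m : Fin (n i)) (u : ι i → L) (x : Idx κ ι n → L) :
    inc κ L i m u ⬝ᵥ x = u ⬝ᵥ pr κ L i m x := by
  change (∑ a, u a • (Pi.single (Sum.inr ⟨i, (a, m)⟩) 1 : Idx κ ι n → L)) ⬝ᵥ x = _
  rw [sum_dotProduct, dotProduct]
  refine Finset.sum_congr rfl fun a _ => ?_
  rw [smul_dotProduct, single_dotProduct, one_mul, smul_eq_mul, pr_apply]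

end dot

/-- the total representation -/
abbrev RT (n : I → ℕ) (ρB : Γ →* Matrix κ κ k) (ρ : ∀ i, Γ →* Matrix (ι i) (ι i) k) (K : Type)
    [Field K] [Algebra k K] : Representation K Γ (Idx κ ι n → K) := repM (sumRep n ρB ρ) K

theorem RT_eq (g : Γ) (x : Idx κ ι n → K) : RT n ρB ρ K g x =
    (blocks n ((ρB g).map (algebraMap k K)) fun i => (ρ i g).map (algebraMap k K)).mulVec x := by
  change repM (sumRep n ρB ρ) K g x = _
  rw [repM_apply, Matrix.toLin'_apply]
  congr 1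
  exact blocks_map _ (map_zero _) _ _

theorem RT_incB (g : Γ) (v : κ → K) :
    RT n ρB ρ K g (incB ι n K v) = incB ι n K (repM ρB K g v) := by
  rw [RT_eq, blocks_incB, repM_apply, Matrix.toLin'_apply]

theorem RT_inc (g : Γ) (i : I) (m : Fin (n i)) (v : ι i → K) :
    RT n ρB ρ K g (inc κ K i m v) = inc κ K i m (repM (ρ i) K g v) := by
  rw [RT_eq, blocks_inc, repM_apply, Matrix.toLin'_apply]

theorem RT_prB (g : Γ) (x : Idx κ ι n → K) :
    prB ι n K (RT n ρB ρ K g x) = repM ρB K g (prB ι n K x) := by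
  rw [RT_eq, blocks_prB, repM_apply, Matrix.toLin'_apply]

theorem RT_pr (g : Γ) (i : I) (m : Fin (n i)) (x : Idx κ ι n → K) :
    pr κ K i m (RT n ρB ρ K g x) = repM (ρ i) K g (pr κ K i m x) := by
  rw [RT_eq, blocks_pr, repM_apply, Matrix.toLin'_apply]

theorem RT_sq {γ : Γ} (h : SquareZero (repM ρB K) (fun i => repM (ρ i) K) γ) :
    (RT n ρB ρ K γ - 1) * (RT n ρB ρ K γ - 1) = 0 := by
  have hB : ∀ v, (RT n ρB ρ K γ - 1) (incB ι n K v) = incB ι n K ((repM ρB K γ - 1) v) := by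
    intro v
    rw [LinearMap.sub_apply, LinearMap.sub_apply, map_sub, RT_incB]
    rfl
  have hi : ∀ i m v, (RT n ρB ρ K γ - 1) (inc κ K i m v) =
      inc κ K i m ((repM (ρ i) K γ - 1) v) := by
    intro i m v
    rw [LinearMap.sub_apply, LinearMap.sub_apply, map_sub, RT_inc]
    rfl
  refine ext_blk (fun v => ?_) (fun i m v => ?_)
  · rw [Module.End.mul_apply, hB, hB, ← Module.End.mul_apply (repM ρB K γ - 1), h.1]
    simp
  · rw [Module.End.mul_apply, hi, hi, ← Module.End.mul_apply (repM (ρ i) K γ - 1), h.2 i]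
    simp

variable {χ : Γ →* k} {ψB : Matrix κ κ k} {ψ : ∀ i, Matrix (ι i) (ι i) k}

/-- the character over the large field -/
abbrev chK (χ : Γ →* k) (K : Type) [Field K] [Algebra k K] : Γ →* K :=
  (algebraMap k K).toMonoidHom.comp χ

/-- the form over the large field -/
abbrev fK {ι : Type} [Fintype ι] [DecidableEq ι] (K : Type) [Field K] [Algebra k K]
    (ψ : Matrix ι ι k) : (ι → K) →ₗ[K] (ι → K) →ₗ[K] K := bf (ψ.map (algebraMap k K))

theorem fK_inv {ι : Type} [Fintype ι] [DecidableEq ι] {ρ : Γ →* Matrix ι ι k} {ψ : Matrix ι ι k}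
    (hf : ∀ s, (ρ s).transpose * ψ * ρ s = χ s • ψ) (s : Γ) (u v : ι → K) :
    fK K ψ (repM ρ K s u) (repM ρ K s v) = chK χ K s * fK K ψ u v := by
  have h1 := congrArg (fun M : Matrix ι ι k => M.map (algebraMap k K)) (hf s)
  simp only [Matrix.map_mul, Matrix.transpose_map] at h1
  change bf _ _ _ = _ * bf _ _ _
  rw [repM_apply, Matrix.toLin'_apply, Matrix.toLin'_apply, bf_mul, h1, ← bf_smul]
  congr 3
  ext i j
  simp only [Matrix.map_apply, Matrix.smul_apply, smul_eq_mul, map_mul]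
  rfl

theorem fK_al {ι : Type} [Fintype ι] [DecidableEq ι] {ψ : Matrix ι ι k}
    (ht : ψ.transpose = -ψ) (u v : ι → K) : fK K ψ u v = -fK K ψ v u := by
  change bf _ _ _ = -bf _ _ _
  rw [bf_apply, bf_apply, Matrix.dotProduct_mulVec, ← Matrix.mulVec_transpose,
    dotProduct_comm, ← dotProduct_neg, ← Matrix.neg_mulVec]
  congr 2
  have h1 := congrArg (fun M : Matrix ι ι k => M.map (algebraMap k K)) ht
  rw [← Matrix.transpose_map]
  rw [h1]
  ext i j
  simp

theorem fK_nd {ι : Type} [Fintype ι] [DecidableEq ι] {ψ : Matrix ι ι k} (hψ : IsUnit ψ.det)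
    (u : ι → K) (h : ∀ v, fK K ψ u v = 0) : u = 0 := by
  have hψ' : IsUnit (ψ.map (algebraMap k K)).det := by
    have h1 := (algebraMap k K).map_det ψ
    rw [RingHom.mapMatrix_apply] at h1
    rw [← h1]
    exact hψ.map _
  exact bf_nondeg hψ' u h

/-- the total form -/
abbrev ωT (n : I → ℕ) (ψB : Matrix κ κ k) (ψ : ∀ i, Matrix (ι i) (ι i) k) (K : Type) [Field K]
    [Algebra k K] : (Idx κ ι n → K) →ₗ[K] (Idx κ ι n → K) →ₗ[K] K := fK K (blocks n ψB ψ)

theorem sum_form (hB : ∀ s, (ρB s).transpose * ψB * ρB s = χ s • ψB)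
    (hi : ∀ i s, (ρ i s).transpose * ψ i * ρ i s = χ s • ψ i) (s : Γ) :
    (sumRep n ρB ρ s).transpose * blocks n ψB ψ * sumRep n ρB ρ s = χ s • blocks n ψB ψ := by
  change (blocks n (ρB s) fun i => ρ i s).transpose * _ * (blocks n (ρB s) fun i => ρ i s) = _
  rw [blocks_transpose, blocks_mul, blocks_mul, blocks_smul, hB]
  congr 1
  funext i
  exact hi i s

theorem ωT_inc (i : I) (m : Fin (n i)) (u v : ι i → K) :
    ωT n ψB ψ K (inc κ K i m u) (inc κ K i m v) = fK K (ψ i) u v := by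
  change bf ((blocks n ψB ψ).map (algebraMap k K)) _ _ = bf _ _ _
  rw [bf_apply, bf_apply, blocks_map _ (map_zero _), blocks_inc, inc_dot, pr_inc]

end

end Pool.Agent.X292.ZP
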