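import Pool.Agent.X292.ZP.Lft
import Pool.Agent.X292.ZP.Lag

/-!
# The identity component for the direct sum
-/

set_option linter.unusedSectionVars false

namespace Pool.Agent.X292.ZP

open Module MvPolynomial
open Pool.Agent.W528.ZC (InZ I0 ev sub ev_sub InIdentityComponent Vanishes val repM repM_apply
  toM_repM toM_mul toM inIC_iff InZ_form InZ_comm bf bf_inj bf_mul bf_smul bf_apply toM_toLin
  toLin_toM)

noncomputable section

section sim

variable {L : Type} [CommRing L] {τ : Type} [Fintype τ] [DecidableEq τ]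

/-- similitudes -/
def Sim (ψ g : Matrix τ τ L) (c : L) : Prop := g.transpose * ψ * g = c • ψ

theorem Sim.mul {ψ g h : Matrix τ τ L} {c d : L} (hg : Sim ψ g c) (hh : Sim ψ h d) :
    Sim ψ (g * h) (c * d) := by
  unfold Sim at *
  rw [Matrix.transpose_mul]
  have h1 : h.transpose * g.transpose * ψ * (g * h) = h.transpose * (g.transpose * ψ * g) * h := by
    simp only [mul_assoc]
  rw [h1, hg, mul_smul_comm, smul_mul_assoc, hh, smul_smul]

theorem Sim.map {ψ g : Matrix τ τ L} {c : L} (hg : Sim ψ g c) {L' : Type} [CommRing L']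
    (φ : L →+* L') : Sim (ψ.map φ) (g.map φ) (φ c) := by
  unfold Sim at *
  have h1 := congrArg (fun M : Matrix τ τ L => M.map φ) hg
  simp only [Matrix.map_mul, Matrix.transpose_map] at h1
  rw [h1]
  ext i j
  simp only [Matrix.map_apply, Matrix.smul_apply, smul_eq_mul, map_mul]

theorem dm_map {p : Matrix τ τ L} {t : L} {L' : Type} [CommRing L'] (φ : L →+* L') :
    (dm p t).map φ = dm (p.map φ) (φ t) := by
  ext i j
  simp only [dm, Matrix.map_apply, Matrix.add_apply, Matrix.sub_apply, Matrix.smul_apply,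
    smul_eq_mul, map_add, map_sub, map_mul, Matrix.one_apply]
  split_ifs <;> simp

theorem dm_mul {p : Matrix τ τ L} (hp : p * p = p) (s t : L) : dm p s * dm p t = dm p (s * t) := by
  unfold dm
  simp only [add_mul, mul_add, sub_mul, mul_sub, one_mul, mul_one, smul_mul_assoc, mul_smul_comm,
    hp]
  module

theorem dm_one {p : Matrix τ τ L} : dm p 1 = 1 := by
  unfold dm
  rw [one_smul, sub_add_cancel]

end sim

section aev

variable {K : Type} [Field K] {τ : Type} [Fintype τ] [DecidableEq τ]

theorem aev_eq {A : Type} [CommRing A] [Algebra K A] (φ : A →ₐ[K] K) (M : Matrix τ τ A)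
    (f : MvPolynomial (τ × τ) K) : φ (aeval (fun p => M p.1 p.2) f) = ev (M.map φ) f := by
  unfold ev
  rw [comp_aeval_apply]
  rfl

end aev

variable {I : Type} [Fintype I] [DecidableEq I] {κ : Type} [Fintype κ] [DecidableEq κ]
  {ι : I → Type} [∀ i, Fintype (ι i)] [∀ i, DecidableEq (ι i)] {Γ : Type} [Group Γ]
  {n : I → ℕ} {k : Type} [Field k] [CharZero k] {K : Type} [Field K] [Algebra k K]
  {ρB : Γ →* Matrix κ κ k} {ρ : ∀ i, Γ →* Matrix (ι i) (ι i) k}
  {χ : Γ →* k} {ψB : Matrix κ κ k} {ψ : ∀ i, Matrix (ι i) (ι i) k}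
  [CharZero K] [IsAlgClosed K] (hn : ∀ i, 0 < n i)
  (hfB : ∀ s, (ρB s).transpose * ψB * ρB s = χ s • ψB)
  (hfi : ∀ i s, (ρ i s).transpose * ψ i * ρ i s = χ s • ψ i)
  (hal : ∀ i, (ψ i).transpose = -ψ i) (hnd : ∀ i, IsUnit (ψ i).det)
  (hG : GoodFamily (chK χ K) (repM ρB K) fun i => repM (ρ i) K)

/-- matrices over the large field -/
abbrev mK {τ : Type} (K : Type) [Field K] [Algebra k K] (M : Matrix τ τ k) : Matrix τ τ K :=
  M.map (algebraMap k K)

theorem toM_RT (s : Γ) : toM (RT n ρB ρ K s) = blocks n (mK K (ρB s)) fun i => mK K (ρ i s) := by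
  change toM (repM (sumRep n ρB ρ) K s) = _
  rw [toM_repM]
  exact blocks_map _ (map_zero _) _ _

theorem fK_of_sim {ι : Type} [Fintype ι] [DecidableEq ι] {ψ : Matrix ι ι k} {g : Matrix ι ι K}
    {c : K} (h : Sim (mK K ψ) g c) (u v : ι → K) :
    fK K ψ (Matrix.toLin' g u) (Matrix.toLin' g v) = c * fK K ψ u v := by
  change bf _ _ _ = _ * bf _ _ _
  rw [Matrix.toLin'_apply, Matrix.toLin'_apply, bf_mul, h, bf_smul]

include hn hfB hfi hal hnd hG in
theorem step1 {f : MvPolynomial (Idx κ ι n × Idx κ ι n) K} {Δ : Subgroup Γ} (hΔ : Δ.FiniteIndex)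
    (hf : ∀ s ∈ Δ, ev (toM (RT n ρB ρ K s)) f = 0) {s : Γ} (hs : s ∈ Δ)
    {u : ∀ i, Matrix (ι i) (ι i) K} (hu : ∀ i, Sim (mK K (ψ i)) (u i) 1) :
    ev (blocks n (mK K (ρB s)) fun i => mK K (ρ i s) * u i) f = 0 := by
  have h1 : sub (toM (RT n ρB ρ K s)) 1 f ∈ I0 (RT n ρB ρ K) := by
    refine ⟨Δ, hΔ, fun g hg => ?_⟩
    rw [ev_sub, mul_one, ← toM_mul, ← map_mul]
    exact hf _ (Δ.mul_mem hs hg)
  have h2 := Ex_mem (κ := κ) hn hfB hfi hal hnd hG (fun i => Matrix.toLin' (u i))
    (fun i a b => by rw [fK_of_sim (hu i), one_mul]) _ h1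
  rw [ev_sub, mul_one, toM_RT] at h2
  have h3 : toM (Ex κ n fun i => Matrix.toLin' (u i)) = blocks n 1 u := by
    change LinearMap.toMatrix' (Matrix.toLin' _) = _
    rw [LinearMap.toMatrix'_toLin']
    simp only [LinearMap.toMatrix'_toLin']
  rw [h3, blocks_mul, mul_one] at h2
  exact h2

theorem chi_inv (s : Γ) : χ s⁻¹ * χ s = 1 := by
  rw [← map_mul, inv_mul_cancel, map_one]

theorem rep_inv {ι : Type} [Fintype ι] [DecidableEq ι] (ρ : Γ →* Matrix ι ι k) (s : Γ) :
    mK K (ρ s) * mK K (ρ s⁻¹) = 1 := by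
  rw [← Matrix.map_mul, ← map_mul, mul_inv_cancel, map_one, Matrix.map_one _ (map_zero _)
    (map_one _)]

include hn hfB hfi hal hnd hG in
theorem step2 {f : MvPolynomial (Idx κ ι n × Idx κ ι n) K} {Δ : Subgroup Γ} (hΔ : Δ.FiniteIndex)
    (hf : ∀ s ∈ Δ, ev (toM (RT n ρB ρ K s)) f = 0) {p : ∀ i, Matrix (ι i) (ι i) k}
    (hp : ∀ i, p i * p i = p i) (hpψ : ∀ i, (p i).transpose * ψ i + ψ i * p i = ψ i)
    {v : ∀ i, Matrix (ι i) (ι i) K} (hv : ∀ i, Sim (mK K (ψ i)) (v i) 1) {s : Γ} (hs : s ∈ Δ) :
    ev (blocks n (mK K (ρB s)) fun i => dm (mK K (p i)) (chK χ K s) * v i) f = 0 := by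
  have h1 := step1 hn hfB hfi hal hnd hG hΔ hf hs
    (u := fun i => mK K (ρ i s⁻¹) * dm (mK K (p i)) (chK χ K s) * v i) (fun i => by
      have e1 : Sim (mK K (ψ i)) (mK K (ρ i s⁻¹)) (chK χ K s⁻¹) :=
        Sim.map (hfi i s⁻¹) (algebraMap k K)
      have e2 : Sim (mK K (ψ i)) (dm (mK K (p i)) (chK χ K s)) (chK χ K s) := by
        have e3 : Sim (ψ i) (dm (p i) (χ s)) (χ s) := dm_form (hp i) (hpψ i) (χ s)
        have e4 := e3.map (algebraMap k K)
        rw [dm_map] at e4
        exact e4
      have e5 := (e1.mul e2).mul (hv i)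
      rwa [← map_mul, inv_mul_cancel, map_one, one_mul] at e5)
  have h3 : (fun i => dm (mK K (p i)) (chK χ K s) * v i) = fun i =>
      mK K (ρ i s) * (mK K (ρ i s⁻¹) * dm (mK K (p i)) (chK χ K s) * v i) := by
    funext i
    rw [← mul_assoc, ← mul_assoc, rep_inv, one_mul]
  rw [h3]
  exact h1

include hn hfB hfi hal hnd hG in
theorem inIC_of (hψB : IsUnit ψB.det) (hχ : ∀ Δ : Subgroup Γ, Δ.FiniteIndex → ∃ s ∈ Δ, χ s ≠ 1)
    {gB : Matrix κ κ K} {gA : ∀ i, Matrix (ι i) (ι i) K} {c : K} (hc : c ≠ 0)
    (hgB : InIdentityComponent ρB gB) (hcB : Sim (mK K ψB) gB c)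
    (hcA : ∀ i, Sim (mK K (ψ i)) (gA i) c) :
    InIdentityComponent (sumRep n ρB ρ) (blocks n gB gA) := by
  rintro f ⟨Δ, hΔ, hf⟩
  have hf' : ∀ s ∈ Δ, ev (toM (RT n ρB ρ K s)) f = 0 := by
    intro s hs
    have h1 := hf s hs
    change ev _ f = 0 at h1
    rwa [← toM_repM] at h1
  have h0 : ∀ i a, ψ i a a = 0 := by
    intro i a
    have h1 := congrFun (congrFun (hal i) a) a
    rw [Matrix.transpose_apply, Matrix.neg_apply] at h1
    exact self_eq_neg.1 h1
  choose p hp hpψ using fun i => exists_lag_matrix (hal i) (h0 i) (hnd i)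
  have hpp : ∀ i, mK K (p i) * mK K (p i) = mK K (p i) := fun i => by
    rw [← Matrix.map_mul, hp]
  -- the symplectic matrices
  have hsd : ∀ i (t : K), Sim (mK K (ψ i)) (dm (mK K (p i)) t) t := by
    intro i t
    refine dm_form (hpp i) ?_ t
    have h1 := congrArg (fun M : Matrix (ι i) (ι i) k => M.map (algebraMap k K)) (hpψ i)
    simp only [Matrix.map_mul, Matrix.transpose_map, Matrix.map_add _ (map_add _)] at h1
    exact h1
  let v : ∀ i, Matrix (ι i) (ι i) K := fun i => dm (mK K (p i)) c⁻¹ * gA i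
  have hv : ∀ i, Sim (mK K (ψ i)) (v i) 1 := by
    intro i
    have h1 := (hsd i c⁻¹).mul (hcA i)
    rwa [inv_mul_cancel₀ hc] at h1
  have hvA : ∀ i, dm (mK K (p i)) c * v i = gA i := by
    intro i
    change _ * (_ * _) = _
    rw [← mul_assoc, dm_mul (hpp i), mul_inv_cancel₀ hc, dm_one, one_mul]
  have h2 := fun s hs => step2 hn hfB hfi hal hnd hG hΔ hf' hp hpψ hv (s := s) hs
  have goal : ev (blocks n gB fun i => dm (mK K (p i)) c * v i) f = 0 := by
    by_cases hκ : Nonempty κ
    · -- the multiplier is a polynomial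
      obtain ⟨a, b, hab⟩ : ∃ a b, ψB a b ≠ 0 := by
        by_contra hcon
        push Not at hcon
        have h3 : ψB = 0 := by
          ext a b
          exact hcon a b
        have := hκ
        rw [h3, Matrix.det_zero] at hψB
        exact not_isUnit_zero hψB
      let G : Matrix κ κ (MvPolynomial (κ × κ) K) := Matrix.of fun a b => X (a, b)
      let ψC : Matrix κ κ (MvPolynomial (κ × κ) K) := (mK K ψB).map C
      let M : MvPolynomial (κ × κ) K := C ((algebraMap k K (ψB a b))⁻¹) *
        (G.transpose * ψC * G) a b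
      let Q : MvPolynomial (κ × κ) K := aeval (fun q : Idx κ ι n × Idx κ ι n =>
        (blocks n G fun i => dm ((mK K (p i)).map C) M * (v i).map C) q.1 q.2) f
      have hmap : ∀ {τ : Type} (x : Matrix κ κ K) (Y : Matrix τ τ K),
          (Y.map (C : K →+* MvPolynomial (κ × κ) K)).map (ev x) = Y := by
        intro τ x Y
        ext i j
        rw [Matrix.map_apply, Matrix.map_apply, Pool.Agent.W528.ZC.ev_C]
      have hG : ∀ x : Matrix κ κ K, G.map (ev x) = x := by
        intro x
        ext i j
        rw [Matrix.map_apply]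
        exact Pool.Agent.W528.ZC.ev_X x (i, j)
      have hM : ∀ (x : Matrix κ κ K) (c : K), Sim (mK K ψB) x c → ev x M = c := by
        intro x c hx
        change ev x (C _ * _) = c
        rw [map_mul, Pool.Agent.W528.ZC.ev_C]
        have h3 : ev x ((G.transpose * ψC * G) a b) = (x.transpose * mK K ψB * x) a b := by
          have h5 : G.map (ev x : MvPolynomial (κ × κ) K →+* K) = x := hG x
          have h6 : ψC.map (ev x : MvPolynomial (κ × κ) K →+* K) = mK K ψB := hmap x (mK K ψB)
          have h7 : (G.transpose * ψC * G).map (ev x : MvPolynomial (κ × κ) K →+* K) =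
              x.transpose * mK K ψB * x := by
            rw [Matrix.map_mul, Matrix.map_mul, Matrix.transpose_map, h5, h6]
          exact congrFun (congrFun h7 a) b
        have h4 : algebraMap k K (ψB a b) ≠ 0 := (map_ne_zero _).2 hab
        rw [h3, hx]
        change (algebraMap k K (ψB a b))⁻¹ * (c * algebraMap k K (ψB a b)) = c
        field_simp
      have hQ : ∀ (x : Matrix κ κ K) (c : K), Sim (mK K ψB) x c →
          ev x Q = ev (blocks n x fun i => dm (mK K (p i)) c * v i) f := by
        intro x c hx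
        change ev x (aeval _ f) = _
        rw [aev_eq, blocks_map _ (map_zero _), hG]
        congr 3
        funext i
        have h5 := Matrix.map_mul (L := dm ((mK K (p i)).map C) M) (M := (v i).map C)
          (f := (ev x : MvPolynomial (κ × κ) K →+* K))
        rw [dm_map] at h5
        have h6 := hmap x (v i)
        have h7 := hmap x (mK K (p i))
        have h8 := hM x c hx
        change ((v i).map C).map (ev x : MvPolynomial (κ × κ) K →+* K) = _ at h6
        change ((mK K (p i)).map C).map (ev x : MvPolynomial (κ × κ) K →+* K) = _ at h7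
        change (ev x : MvPolynomial (κ × κ) K →+* K) M = c at h8
        rw [h6, h7, h8] at h5
        exact h5
      have h3 := hgB Q ⟨Δ, hΔ, fun s hs => by
        change ev (mK K (ρB s)) Q = 0
        rw [hQ _ (chK χ K s) (Sim.map (hfB s) (algebraMap k K))]
        exact h2 s hs⟩
      change ev gB Q = 0 at h3
      rwa [hQ gB c hcB] at h3
    · -- the multiplier is free
      have hκ' : IsEmpty κ := not_nonempty_iff.1 hκ
      let Q : Polynomial K := aeval (fun q : Idx κ ι n × Idx κ ι n =>
        (blocks n (0 : Matrix κ κ (Polynomial K)) fun i =>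
          dm ((mK K (p i)).map Polynomial.C) Polynomial.X * (v i).map Polynomial.C) q.1 q.2) f
      have hQ : ∀ (x : Matrix κ κ K) (t : K),
          Polynomial.eval t Q = ev (blocks n x fun i => dm (mK K (p i)) t * v i) f := by
        intro x t
        let φ : Polynomial K →ₐ[K] K := Polynomial.aeval t
        have hφ : ∀ q : Polynomial K, φ q = Polynomial.eval t q := fun q => by
          rw [← Polynomial.coe_aeval_eq_eval]
        let φ' : Polynomial K →+* K := φ
        rw [← hφ]
        change φ (aeval _ f) = _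
        rw [aev_eq, blocks_map _ (map_zero _)]
        have hmap : ∀ {τ : Type} (Y : Matrix τ τ K), (Y.map Polynomial.C).map φ' = Y := by
          intro τ Y
          ext i j
          rw [Matrix.map_apply, Matrix.map_apply]
          exact Polynomial.aeval_C t _
        have e1 : (0 : Matrix κ κ (Polynomial K)).map φ = x := by
          ext a
          exact (hκ'.false a).elim
        rw [e1]
        congr 3
        funext i
        have h5 := Matrix.map_mul (L := dm ((mK K (p i)).map Polynomial.C) Polynomial.X)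
          (M := (v i).map Polynomial.C) (f := φ')
        rw [dm_map] at h5
        have h8 : φ' Polynomial.X = t := Polynomial.aeval_X t
        rw [hmap, hmap, h8] at h5
        exact h5
      have hinf : (Set.range fun s : Δ => chK χ K s).Infinite := by
        intro hfin
        have hcv : ∀ s : Γ, chK χ K s ≠ 0 := by
          intro s hs0
          have h1 : chK χ K (s⁻¹ * s) = 1 := by rw [inv_mul_cancel, map_one]
          rw [map_mul, hs0, mul_zero] at h1
          exact zero_ne_one h1
        let e : Δ →* Kˣ :=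
          { toFun := fun s => Units.mk0 (chK χ K s) (hcv s)
            map_one' := Units.ext (map_one (chK χ K))
            map_mul' := fun s t => Units.ext (map_mul (chK χ K) s.1 t.1) }
        have hfr : Finite e.range := by
          have h1 : (Set.range e).Finite := by
            refine Set.Finite.of_finite_image (f := fun u : Kˣ => (u : K)) (hfin.subset ?_)
              (Units.val_injective.injOn)
            rintro _ ⟨_, ⟨g, rfl⟩, rfl⟩
            exact ⟨g, rfl⟩
          exact h1.to_subtype
        have hker : e.ker.FiniteIndex := Subgroup.finiteIndex_ker e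
        obtain ⟨s, hs, hs1⟩ := hχ (e.ker.map Δ.subtype) (Pool.Agent.W522.U.fi_map hΔ _ hker)
        obtain ⟨s', hs', rfl⟩ := hs
        have h1 : chK χ K s' = 1 := congrArg Units.val (MonoidHom.mem_ker.1 hs')
        apply hs1
        apply (algebraMap k K).injective
        rw [map_one]
        exact h1
      have hQ0 : Q = 0 := by
        refine Polynomial.eq_zero_of_infinite_isRoot Q (hinf.mono ?_)
        rintro _ ⟨s, rfl⟩
        change Polynomial.IsRoot Q _
        rw [Polynomial.IsRoot.def, hQ (mK K (ρB s))]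
        exact h2 s s.2
      rw [← hQ, hQ0, Polynomial.eval_zero]
  have h3 : (blocks n gB fun i => dm (mK K (p i)) c * v i) = blocks n gB gA := by
    congr 1
    funext i
    exact hvA i
  rw [h3] at goal
  exact goal

end

end Pool.Agent.X292.ZP
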